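import Pool.Agent.Lib_helper17.RS.Bas

/-!
# Integrality of rational Stark elements: definitions
-/

namespace Pool.Agent.AU

set_option linter.unusedSectionVars false

open Pool.Agent.RSK
open NumberField IsDedekindDomain Filter Topology Complex
open scoped TensorProduct

section

variable {F H : Type} [Field F] [NumberField F] [Field H] [NumberField H] [Algebra F H]
variable {G : Type} [CommGroup G] [Fintype G]

/-- The characters `χ` with `L^{(r)}_{S,T}(χ, 0) ≠ 0`: for `χ ≠ 1` the places of `S` other than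
`v_1, …, v_r` have a decomposition group on which `χ` is not trivial, and for `χ = 1` the set `S`
has exactly `r + 1` elements. -/
def Cont (ι : G ≃* (H ≃ₐ[F] H)) (S : Finset (HeightOneSpectrum (𝓞 F))) {r : ℕ}
    (w : Fin r → Pl H) (χ : G →* ℂˣ) : Prop :=
  (χ = 1 → Fintype.card (InfinitePlace F) + S.card = r + 1) ∧
  (χ ≠ 1 → ∀ W : Pl H, InS S (dn F W) → (∀ g : G, act (ι g) W = W → χ g = 1) →
    ∃ i, dn F W = dn F (w i))

/-- `u ∈ ℚ ⊗ ⋀^r U_{S,T}` is a rational Stark element: `u = e_r u`, and `w_1^* ∧ … ∧ w_r^*` maps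
`λ(u)` to the element `Θ` with `χ(Θ) = c(χ⁻¹)`. -/
structure IsStark (ι : G ≃* (H ≃ₐ[F] H)) (S T : Finset (HeightOneSpectrum (𝓞 F))) {r : ℕ}
    (w : Fin r → Pl H) (c : (G →* ℂˣ) → ℂ)
    (u : (⋀[MonoidAlgebra ℤ G]^r (UM ι S T)) ⊗[ℤ] ℚ) : Prop where
  /-- the elements `a ∈ ℤ[G]` with `χ(a) = 0` for all `χ` with `L^{(r)}_{S,T}(χ, 0) ≠ 0` kill
  `u` -/
  er : ∀ a : MonoidAlgebra ℤ G, (∀ χ, Cont ι S w χ → evZ χ a = 0) → a • u = 0
  /-- `(w_1^* ∧ … ∧ w_r^*)(λ(u)) = Θ` -/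
  value : ∀ χ : G →* ℂˣ,
    evR χ (extQ (detMap (fun i => wl ι S T (w i))).toAddMonoidHom u) = c χ⁻¹

/-- the element `(ψ_1 ∧ … ∧ ψ_r)(u)` of `ℚ[G]` -/
noncomputable def psiQ {ι : G ≃* (H ≃ₐ[F] H)} {S T : Finset (HeightOneSpectrum (𝓞 F))} {r : ℕ}
    (ψ : Fin r → (UM ι S T →ₗ[MonoidAlgebra ℤ G] MonoidAlgebra ℤ G))
    (u : (⋀[MonoidAlgebra ℤ G]^r (UM ι S T)) ⊗[ℤ] ℚ) : MonoidAlgebra ℚ G :=
  extQ ((toQ G).toAddMonoidHom.comp (detMap ψ).toAddMonoidHom) u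

/-- `u` lies in Rubin's lattice locally at the prime `q`: all `ψ_1 ∧ … ∧ ψ_r` map `u` to
`ℤ_(q)[G]`. -/
def IntAt {ι : G ≃* (H ≃ₐ[F] H)} {S T : Finset (HeightOneSpectrum (𝓞 F))} {r : ℕ}
    (u : (⋀[MonoidAlgebra ℤ G]^r (UM ι S T)) ⊗[ℤ] ℚ) (q : ℕ) : Prop :=
  ∀ ψ : Fin r → (UM ι S T →ₗ[MonoidAlgebra ℤ G] MonoidAlgebra ℤ G),
    ∃ (m : ℕ) (a : MonoidAlgebra ℤ G), ¬ q ∣ m ∧
      MonoidAlgebra.single 1 (m : ℚ) * psiQ ψ u = toQ G a

end

section

variable {F K : Type} [Field F] [NumberField F] [Field K] [NumberField K] [Algebra F K]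

/-- the divisors of `K` which are prime to `T` and invariant under all `σ ∈ Gal(K/F)` with
`σ ^ p = 1` -/
noncomputable def DvP (p : ℕ) (F K : Type) [Field F] [NumberField F] [Field K] [NumberField K]
    [Algebra F K] (T : Finset (HeightOneSpectrum (𝓞 F))) :
    AddSubgroup (HeightOneSpectrum (𝓞 K) →₀ ℤ) where
  carrier := {D | D ∈ Dv (ovr K T) ∧ ∀ σ : K ≃ₐ[F] K, σ ^ p = 1 →
    ∀ W : HeightOneSpectrum (𝓞 K), D (HeightOneSpectrum.equivOfRingEquiv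
      (RingOfIntegers.mapRingEquiv σ.toRingEquiv) W) = D W}
  zero_mem' := ⟨(Dv _).zero_mem, fun _ _ _ => rfl⟩
  add_mem' := fun {a b} ha hb => ⟨(Dv _).add_mem ha.1 hb.1, fun σ hσ W => by
    rw [Finsupp.add_apply, Finsupp.add_apply, ha.2 σ hσ W, hb.2 σ hσ W]⟩
  neg_mem' := fun {a} ha => ⟨(Dv _).neg_mem ha.1, fun σ hσ W => by
    rw [Finsupp.neg_apply, Finsupp.neg_apply, ha.2 σ hσ W]⟩

/-- the order of the quotient of the `(S,T)`-class group of `K` by the classes of the divisors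
which are invariant under all `σ ∈ Gal(K/F)` with `σ ^ p = 1` -/
noncomputable def hJ (p : ℕ) (F K : Type) [Field F] [NumberField F] [Field K] [NumberField K]
    [Algebra F K] (S T : Finset (HeightOneSpectrum (𝓞 F))) : ℕ :=
  (Pr (ovr K S) (ovr K T) ⊔ DvP p F K T).relIndex (Dv (ovr K T))

end

end Pool.Agent.AU
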