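import Pool.Agent.Lib_helper35.RS2.K_NM2
import Pool.Agent.Lib_helper3.AU.Defs

/-!
# The norm formula for an extension of degree `p`, with the class group factor
-/

namespace Pool.Agent.AU

set_option linter.unusedSectionVars false

open Pool.Agent.RSK Pool.Agent.RS2
open NumberField NumberField.InfinitePlace NumberField.Units IsDedekindDomain Filter Topology
  Complex

section DEGP

variable {F H : Type} [Field F] [NumberField F] [Field H] [NumberField H] [Algebra F H]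
  [IsGalois F H] {G : Type} [CommGroup G] [Fintype G] {p : ℕ} {ι : G ≃* (H ≃ₐ[F] H)}
  {S T : Finset (HeightOneSpectrum (𝓞 F))} {r : ℕ} {w : Fin r → Pl H}
  {fr : HeightOneSpectrum (𝓞 F) → G}

/-- the order of the cokernel of the map from the `(S,T)`-class group of `F` to that of `H` -/
noncomputable def jE (F H : Type) [Field F] [NumberField F] [Field H] [NumberField H]
    [Algebra F H] (S T : Finset (HeightOneSpectrum (𝓞 F))) : ℕ :=
  (Pr (ovr H S) (ovr H T) ⊔ (Dv T).map (Pool.Agent.RS2.cd_ext F H)).relIndex (Dv (ovr H T))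

theorem nj_le (F H : Type) [Field F] [NumberField F] [Field H] [NumberField H]
    [Algebra F H] (T : Finset (HeightOneSpectrum (𝓞 F))) :
    (Dv T).map (Pool.Agent.RS2.cd_ext F H) ≤ Dv (ovr H T) := by
  rintro _ ⟨D, hDT, rfl⟩ W hW
  show D (W.under (𝓞 F)) = 0
  exact hDT _ (mem_ovr.1 hW)

theorem nj_pr_le {k : Type} [Field k] [NumberField k] (S T : Finset (HeightOneSpectrum (𝓞 k))) :
    Pr S T ≤ Dv T := fun _ h => h.1

theorem nj_hA (F H : Type) [Field F] [NumberField F] [Field H] [NumberField H]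
    [Algebra F H] (S T : Finset (HeightOneSpectrum (𝓞 F))) :
    (Pr (ovr H S) (ovr H T)).relIndex ((Dv T).map (Pool.Agent.RS2.cd_ext F H)) * jE F H S T =
      hA (ovr H S) (ovr H T) := by
  set A := Pr (ovr H S) (ovr H T)
  set E := (Dv T).map (Pool.Agent.RS2.cd_ext F H)
  have h1 : A.relIndex (A ⊔ E) * (A ⊔ E).relIndex (Dv (ovr H T)) = A.relIndex (Dv (ovr H T)) :=
    AddSubgroup.relIndex_mul_relIndex _ _ _ le_sup_left (sup_le (nj_pr_le _ _) (nj_le F H T))
  have h2 : A.relIndex (A ⊔ E) = A.relIndex E := by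
    rw [sup_comm]
    exact AddSubgroup.relIndex_sup_right _ _
  rw [h2] at h1
  exact h1

theorem cap_dvdJ (hp : p.Prime) (hG : Nat.card G = p) (hD : DataW ι S T r w fr) {σ : G}
    (hσ : σ ≠ 1) :
    hA S T * jE F H S T ∣
      hA (ovr H S) (ovr H T) * (mSub (UM ι S T) σ).relIndex (mMinus G (UM ι S T)) := by
  have h1 : (Pr S T).relIndex (cd_K F H S T) * (cd_K F H S T).relIndex (Dv T) =
      (Pr S T).relIndex (Dv T) :=
    AddSubgroup.relIndex_mul_relIndex _ _ _ (cd_Pr_le hD) inf_le_left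
  have h2 : (Pr S T).relIndex (cd_K F H S T) ∣
      (mSub (UM ι S T) σ).relIndex (mMinus G (UM ι S T)) := by
    have e1 : (Pr S T).relIndex (cd_K F H S T) = Nat.card (cd_theta ι S T σ).range := by
      rw [← AddSubgroup.index_ker, cd_ker hp hG hD hσ]
      rfl
    rw [e1]
    exact AddSubgroup.card_addSubgroup_dvd_card _
  have h3 : (cd_K F H S T).relIndex (Dv T) =
      (Pr (ovr H S) (ovr H T)).relIndex ((Dv T).map (Pool.Agent.RS2.cd_ext F H)) := by
    have e1 : (cd_K F H S T).relIndex (Dv T) =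
        ((Pr (ovr H S) (ovr H T)).comap (cd_ext F H)).relIndex (Dv T) := by
      rw [cd_K, AddSubgroup.inf_relIndex_left]
    rw [e1, AddSubgroup.relIndex_comap]
  rw [hA, ← h1, h3, mul_assoc, nj_hA, mul_comm]
  exact mul_dvd_mul_left _ h2

/-- `|N x| [U : U⁺ + B] h₁ = p^m J k` -/
theorem nj_main (hp : p.Prime) (hG : Nat.card G = p) (hD : DataW ι S T r w fr)
    {m : ℕ} (hm : Fintype.card (PS S) = r + m + 1)
    {c : (G →* ℂˣ) → ℂ} (hc : LeadX S T r fr c) {b : Fin r → UM ι S T} {x : MonoidAlgebra ℚ G}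
    (hco : Core ι S T w c b x) :
    ∃ k : ℕ, ‖pX (fun χ => evQ χ x)‖ * ((p : ℝ) ^ r *
      ((mSpn G b).relIndex (mMinus G (UM ι S T)) : ℝ)) = (p : ℝ) ^ m * (jE F H S T * k) := by
  obtain ⟨σ, hσ⟩ := nm2_sigma hp hG
  have hfin : Module.Finite ℤ (UM ι S T) := um_finite hD
  have htf : Module.IsTorsionFree ℤ (UM ι S T) := um_tf hD
  have hrk : Module.finrank ℤ (mMinus G (UM ι S T)) = r * (p - 1) := um_rank hp hG hD
  have h1 := idx_one hp hG hσ hrk b (fun j => hco.minus j)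
  obtain ⟨k, hk⟩ := cap_dvdJ hp hG hD hσ
  have h2 := norm_x hp hG hD hm hc hco
  have hF : (hA S T : ℝ) ≠ 0 := Nat.cast_ne_zero.2 (nm2_hA_pos hD).ne'
  have h1' : ((mPlus G (UM ι S T) ⊔ mSpn G b).index : ℝ) *
      ((mSub (UM ι S T) σ).relIndex (mMinus G (UM ι S T)) : ℝ) =
      (p : ℝ) ^ r * ((mSpn G b).relIndex (mMinus G (UM ι S T)) : ℝ) := by
    exact_mod_cast h1
  have hk' : (hA (ovr H S) (ovr H T) : ℝ) *
      ((mSub (UM ι S T) σ).relIndex (mMinus G (UM ι S T)) : ℝ) =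
        (hA S T : ℝ) * jE F H S T * k := by
    exact_mod_cast hk
  refine ⟨k, mul_left_cancel₀ hF ?_⟩
  calc (hA S T : ℝ) * (‖pX (fun χ => evQ χ x)‖ * ((p : ℝ) ^ r *
        ((mSpn G b).relIndex (mMinus G (UM ι S T)) : ℝ)))
      = (hA S T : ℝ) * (‖pX (fun χ => evQ χ x)‖ * (((mPlus G (UM ι S T) ⊔ mSpn G b).index : ℝ) *
      ((mSub (UM ι S T) σ).relIndex (mMinus G (UM ι S T)) : ℝ))) := by rw [h1']
    _ = (‖pX (fun χ => evQ χ x)‖ * (hA S T * (mPlus G (UM ι S T) ⊔ mSpn G b).index)) *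
      ((mSub (UM ι S T) σ).relIndex (mMinus G (UM ι S T)) : ℝ) := by ring
    _ = ((p : ℝ) ^ m * hA (ovr H S) (ovr H T)) *
      ((mSub (UM ι S T) σ).relIndex (mMinus G (UM ι S T)) : ℝ) := by rw [h2]
    _ = (p : ℝ) ^ m * (hA (ovr H S) (ovr H T) *
      ((mSub (UM ι S T) σ).relIndex (mMinus G (UM ι S T)) : ℝ)) := by ring
    _ = (p : ℝ) ^ m * ((hA S T : ℝ) * jE F H S T * k) := by rw [hk']
    _ = (hA S T : ℝ) * ((p : ℝ) ^ m * (jE F H S T * k)) := by ring

theorem norm_dvdJ (hp : p.Prime) (hG : Nat.card G = p) (hD : DataW ι S T r w fr)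
    {m : ℕ} (hm : Fintype.card (PS S) = r + m + 1)
    {c : (G →* ℂˣ) → ℂ} (hc : LeadX S T r fr c) {b : Fin r → UM ι S T} {x : MonoidAlgebra ℚ G}
    (hco : Core ι S T w c b x)
    (ψ : Fin r → (UM ι S T →ₗ[MonoidAlgebra ℤ G] MonoidAlgebra ℤ G)) :
    ∃ t : ℤ, pX (fun χ => evQ χ (x * toQ G (pmat ψ b).det)) =
      (p : ℂ) ^ m * (jE F H S T : ℂ) * t := by
  have hfin : Module.Finite ℤ (UM ι S T) := um_finite hD
  have htf : Module.IsTorsionFree ℤ (UM ι S T) := um_tf hD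
  have hrk : Module.finrank ℤ (mMinus G (UM ι S T)) = r * (p - 1) := um_rank hp hG hD
  obtain ⟨t, ht⟩ := idx_two hp hG hrk b (fun j => hco.minus j) ψ
  obtain ⟨k, hk⟩ := nj_main hp hG hD hm hc hco
  have h1 : pX (fun χ => evQ χ (x * toQ G (pmat ψ b).det)) =
      pX (fun χ => evQ χ x) * (t * ((p : ℂ) ^ r *
        ((mSpn G b).relIndex (mMinus G (UM ι S T)) : ℂ))) := by
    rw [← ht, ← pX_mul]
    congr 1
    funext χ
    rw [map_mul, nm2_evQ_toQ]
    rfl
  have h2 : ‖pX (fun χ => evQ χ (x * toQ G (pmat ψ b).det))‖ =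
      ((|t| * ((p : ℤ) ^ m * (jE F H S T * k)) : ℤ) : ℝ) := by
    rw [h1, norm_mul, norm_mul, norm_mul, _root_.norm_pow, Complex.norm_natCast, Complex.norm_natCast,
      Complex.norm_intCast]
    push_cast
    rw [← hk]
    ring
  obtain ⟨n', hn', hn''⟩ := nm2_abs (pX_rat hp hG _) h2
  rcases abs_choice t with ht' | ht'
  · rcases hn' with h | h
    · refine ⟨t * k, ?_⟩
      rw [hn'', h, ht']
      push_cast
      ring
    · refine ⟨-(t * k), ?_⟩
      rw [hn'', h, ht']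
      push_cast
      ring
  · rcases hn' with h | h
    · refine ⟨-(t * k), ?_⟩
      rw [hn'', h, ht']
      push_cast
      ring
    · refine ⟨t * k, ?_⟩
      rw [hn'', h, ht']
      push_cast
      ring

end DEGP

end Pool.Agent.AU
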