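import Pool.Agent.Lib_helper3.AU.TRF
import Pool.Agent.Lib_helper17.RS.P_RF2
import Pool.Agent.Lib_helper17.RS.P_RE
import Pool.Agent.Lib_helper17.RS.P_EF
import Pool.Agent.Lib_helper17.RS.P_EG
import Pool.Agent.Lib_helper17.RS.P_CN
import Pool.Agent.Lib_helper17.RS.P_UR

/-!
# The trivial character
-/

namespace Pool.Agent.AU

set_option linter.unusedSectionVars false

open Pool.Agent.RSK Pool.Agent.RS2
open NumberField IsDedekindDomain Filter Topology Complex
open scoped TensorProduct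

section

variable {F H : Type} [Field F] [NumberField F] [Field H] [NumberField H] [Algebra F H]
variable {G : Type} [CommGroup G] [Fintype G] {ι : G ≃* (H ≃ₐ[F] H)}
  {S T : Finset (HeightOneSpectrum (𝓞 F))} {r : ℕ} {w : Fin r → Pl H}
  {fr : HeightOneSpectrum (𝓞 F) → G}

theorem t1_ps {v : Pl F} (h : InS S v) : ∃ P : PS S, P.pl = v := by
  rcases v with v | v
  · exact ⟨Sum.inl v, rfl⟩
  · exact ⟨Sum.inr ⟨v, h⟩, rfl⟩

theorem t1_lg [IsGalois F H] {W : Pl H} (hW : ∀ σ : H ≃ₐ[F] H, act σ W = W → σ = 1) (x : F) :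
    lg W (algebraMap F H x) = lg (dn F W) x := by
  have h1 : Nat.card {σ : H ≃ₐ[F] H // act σ W = W} = 1 := by
    rw [Nat.card_eq_one_iff_unique]
    refine ⟨⟨fun a b => Subtype.ext ?_⟩, ⟨⟨1, act_one W⟩⟩⟩
    rw [hW _ a.2, hW _ b.2]
  rw [lg_gal, h1, Nat.cast_one, one_mul]

/-- the regulator, with respect to the places below the `w_i` -/
theorem t1_reg (hmem : ∀ i, InS S (dn F (w i))) (hinj : ∀ i j, dn F (w i) = dn F (w j) → i = j)
    (hcard : Fintype.card (PS S) = r + 1) (u : Fin r → Fˣ) (hu : ∀ j, u j ∈ Un S T) :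
    regS S u = |Matrix.det (Matrix.of fun i j => lg (dn F (w i)) (u j : F))| := by
  classical
  choose v hv using fun i => t1_ps (hmem i)
  have hvinj : Function.Injective v := by
    intro i j h
    apply hinj
    rw [← hv, ← hv, h]
  obtain ⟨P₀, hP₀⟩ : ∃ P₀ : PS S, ∀ i, v i ≠ P₀ := by
    by_contra hcon
    push Not at hcon
    have h1 := Fintype.card_le_of_surjective v hcon
    rw [hcard, Fintype.card_fin] at h1
    omega
  have hcard' : Fintype.card {P : PS S // P ≠ P₀} = r := by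
    have h1 := Fintype.card_subtype_compl (fun P : PS S => P = P₀)
    rw [Fintype.card_subtype_eq] at h1
    have h2 : Fintype.card {P : PS S // P ≠ P₀} = Fintype.card (PS S) - 1 := h1
    omega
  let e : Fin r ≃ {P : PS S // P ≠ P₀} := Equiv.ofBijective (fun i => ⟨v i, hP₀ i⟩) (by
    rw [Fintype.bijective_iff_injective_and_card, hcard', Fintype.card_fin]
    refine ⟨fun i j h => hvinj (congrArg Subtype.val h), rfl⟩)
  have h1 : lmat S u = fun (P : PS S) (j : Option (Fin r)) => j.elim 1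
      ((fun (P : PS S) (j : Fin r) => lg P.pl (u j : F)) P) := by
    funext P j
    cases j <;> rfl
  have h2 := adet_minor (fun (P : PS S) (j : Fin r) => lg P.pl (u j : F))
    (fun j => sum_lg (hu j)) (by rw [hcard, Fintype.card_fin]) P₀
  have hpos : (0 : ℝ) < Fintype.card (PS S) := by
    rw [hcard]
    positivity
  unfold regS
  rw [h1, ← h2, mul_div_assoc, div_self hpos.ne', mul_one,
    adet_eq (fun (i : {P : PS S // P ≠ P₀}) (j : Fin r) => lg i.1.pl (u j : F)) e]
  congr 2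
  ext i j
  show lg (v i).pl (u j : F) = lg (dn F (w i)) (u j : F)
  rw [hv]

/-- invariant elements of `ℤ[G]` -/
theorem t1_inv {x : MonoidAlgebra ℤ G} (hx : ∀ g : G, MonoidAlgebra.single g (1 : ℤ) * x = x) :
    evZ 1 x = (Nat.card G : ℂ) * (x.coeff 1 : ℤ) := by
  classical
  have hc : ∀ g : G, x.coeff g = x.coeff 1 := by
    intro g
    have h1 : (MonoidAlgebra.single g (1 : ℤ) * x).coeff g = x.coeff g := by rw [hx]
    rw [MonoidAlgebra.coeff_single_mul_apply, one_mul, inv_mul_cancel] at h1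
    exact h1.symm
  have h2 : x = ∑ g : G, MonoidAlgebra.single g (x.coeff 1) := by
    ext g
    rw [MonoidAlgebra.coeff_sum]
    simp [hc g]
  have h3 : ∀ g : G, evZ (1 : G →* ℂˣ) (MonoidAlgebra.single g (x.coeff 1)) = (x.coeff 1 : ℤ) := by
    intro g
    rw [← al_evZ]
    have : toQ G (MonoidAlgebra.single g (x.coeff 1)) =
        MonoidAlgebra.single g ((x.coeff 1 : ℤ) : ℚ) := by
      simp [toQ]
    rw [this, px2_evQ_single]
    simp
  conv_lhs => rw [h2]
  rw [map_sum, Finset.sum_congr rfl fun g _ => h3 g, Finset.sum_const, Finset.card_univ,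
    nsmul_eq_mul, Nat.card_eq_fintype_card]

theorem t1_main [IsGalois F H] (hD : Data ι S T r w fr)
    (hcard : Fintype.card (InfinitePlace F) + S.card = r + 1) {c : (G →* ℂˣ) → ℂ}
    (hc : Lead S T r fr c) (u : (⋀[MonoidAlgebra ℤ G]^r (UM ι S T)) ⊗[ℤ] ℚ)
    (hu : ∀ χ : G →* ℂˣ, evR χ (extQ (detMap (fun i => wl ι S T (w i))).toAddMonoidHom u) = c χ⁻¹)
    (ψ : Fin r → (UM ι S T →ₗ[MonoidAlgebra ℤ G] MonoidAlgebra ℤ G)) :
    ∃ t : ℤ, evQ 1 (psiQ ψ u) = (hA S T : ℂ) * t := by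
  classical
  have htf : TFree S T := tf_F (tf_H hD).1
  obtain ⟨n, ⟨b⟩⟩ := un_exists hD.disj htf
  obtain ⟨hn, hR, hh, Z, hZ1, hZ2, hZ3⟩ := cnf hD.disj htf b
  have hcardS : Fintype.card (PS S) = r + 1 := by
    rw [← hcard]
    simp [PS]
  obtain rfl : n = r := by omega
  -- the leading term
  have hc1 : c 1 = (-1) ^ (T.card + 1) * ((hA S T * regS S (bu b) : ℝ) : ℂ) := by
    obtain ⟨Λ, h1, h2, h3⟩ := hc 1
    have h4 := mero_ext h1 hZ1 (fun s hs => by rw [h2 s hs, hZ2 s hs, lst_one]) 0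
    have h5 : Tendsto (fun s : ℂ => Z s / s ^ n) (𝓝[≠] 0) (𝓝 (c 1)) := by
      refine h3.congr' ?_
      filter_upwards [h4] with s hs
      rw [hs]
    exact tendsto_nhds_unique h5 hZ3
  -- the units of `F` in the units of `H`
  have hinv : ∀ (y : Additive (Un S T)) (g : G),
      MonoidAlgebra.single g (1 : ℤ) • rf2_inc ι S T y = rf2_inc ι S T y :=
    fun y g => rf2_inc_plus y g
  obtain ⟨z, hz1, hz2⟩ := ln_main w 1 (fun k => rf2_inc ι S T (b k)) (fun m => by
    have h1 : nrm G • m ∈ mPlus G (UM ι S T) := by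
      intro g
      rw [← mul_smul]
      congr 1
      unfold nrm
      rw [Finset.mul_sum]
      refine Finset.sum_bij (fun g' _ => g * g') (fun _ _ => Finset.mem_univ _)
        (fun _ _ _ _ h => mul_left_cancel h) (fun g' _ => ⟨g⁻¹ * g', Finset.mem_univ _, by simp⟩) ?_
      intro g' _
      rw [MonoidAlgebra.single_mul_single, one_mul]
    obtain ⟨y, hy⟩ := rf2_plus _ h1
    refine ⟨nrm G, fun k => (b.repr y k) • (1 : MonoidAlgebra ℤ G), ?_, ?_⟩
    · rw [← al_evZ, px2_evQ_nrm_one]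
      exact Nat.cast_ne_zero.2 Nat.card_pos.ne'
    · rw [← hy]
      conv_lhs => rw [← b.sum_repr y]
      rw [map_sum]
      refine Finset.sum_congr rfl fun k _ => ?_
      rw [map_zsmul, smul_assoc, one_smul]) u
  -- the values of the `ψ_i`
  set A : Matrix (Fin n) (Fin n) ℤ :=
    Matrix.of fun i k => (ψ i (rf2_inc ι S T (b k))).coeff 1 with hA'
  have h1 : evZ 1 (pmat ψ (fun k => rf2_inc ι S T (b k))).det =
      (Nat.card G : ℂ) ^ n * (A.det : ℤ) := by
    have hds := Matrix.det_smul (A.map (Int.cast : ℤ → ℂ)) (Nat.card G : ℂ)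
    rw [Fintype.card_fin] at hds
    rw [RingHom.map_det, show ((A.det : ℤ) : ℂ) = (A.map (Int.cast : ℤ → ℂ)).det from
      (Int.castRingHom ℂ).map_det A, ← hds]
    congr 1
    ext i k
    show evZ 1 (ψ i (rf2_inc ι S T (b k))) = (Nat.card G : ℂ) • ((A i k : ℤ) : ℂ)
    rw [t1_inv (fun g => by rw [← smul_eq_mul, ← map_smul, hinv]), smul_eq_mul]
    rfl
  -- the logarithms
  set B : Matrix (Fin n) (Fin n) ℝ :=
    Matrix.of fun i j => lg (dn F (w i)) (bu b j : F) with hB
  have h2 : evR 1 (wmat ι S T w (fun k => rf2_inc ι S T (b k))).det =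
      (Nat.card G : ℂ) ^ n * (B.det : ℝ) := by
    have hds := Matrix.det_smul (B.map (Complex.ofRealHom : ℝ → ℂ)) (Nat.card G : ℂ)
    rw [Fintype.card_fin] at hds
    rw [AlgHom.map_det, show ((B.det : ℝ) : ℂ) = (B.map (Complex.ofRealHom : ℝ → ℂ)).det from
      Complex.ofRealHom.map_det B, ← hds]
    congr 1
    ext i k
    show evR 1 (wl ι S T (w i) (rf2_inc ι S T (b k))) = (Nat.card G : ℂ) • ((B i k : ℝ) : ℂ)
    rw [tr1_evR]
    have h3 : ∀ γ : G, (((lg (act (ι γ) (w i)) ((rf2_inc ι S T (b k)).val : H) : ℝ) : ℂ) *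
        (((1 : G →* ℂˣ) γ : ℂˣ) : ℂ)) = ((B i k : ℝ) : ℂ) := by
      intro γ
      rw [MonoidHom.one_apply, Units.val_one, mul_one]
      congr 1
      have h4 : ((rf2_inc ι S T (b k)).val : H) = algebraMap F H (bu b k : F) := rfl
      rw [h4]
      have h5 : lg (act (ι γ) (w i)) (algebraMap F H (bu b k : F)) =
          lg (w i) (algebraMap F H (bu b k : F)) := by
        conv_lhs => rw [← (ι γ).commutes (bu b k : F)]
        exact lg_act _ _ _
      rw [h5, t1_lg (hD.split i)]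
      rfl
    rw [Finset.sum_congr rfl fun γ _ => h3 γ, Finset.sum_const, Finset.card_univ, nsmul_eq_mul,
      Nat.card_eq_fintype_card, smul_eq_mul]
  have h3 : regS S (bu b) = |B.det| :=
    t1_reg (T := T) hD.mem hD.inj hcardS (bu b) (fun j => (Additive.toMul (b j) : Un S T).2)
  have e1 : (1 : G →* ℂˣ)⁻¹ = 1 := by
    apply MonoidHom.ext
    intro g
    show ((1 : G →* ℂˣ) g)⁻¹ = 1
    rw [MonoidHom.one_apply, inv_one]
  rw [hu, e1, hc1, h2] at hz2
  have hBne : B.det ≠ 0 := by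
    intro h
    rw [h, abs_zero] at h3
    exact hR.ne' h3
  have hBc : ((B.det : ℝ) : ℂ) ≠ 0 := Complex.ofReal_ne_zero.2 hBne
  obtain ⟨ε, hε⟩ : ∃ ε : ℤ, |B.det| = ε * B.det := by
    rcases le_total 0 B.det with h | h
    · exact ⟨1, by rw [abs_of_nonneg h]; simp⟩
    · exact ⟨-1, by rw [abs_of_nonpos h]; simp⟩
  refine ⟨(-1) ^ (T.card + 1) * ε * A.det, ?_⟩
  have h4 : z * (Nat.card G : ℂ) ^ n = (-1) ^ (T.card + 1) * (hA S T : ℂ) * ε := by
    apply mul_right_cancel₀ hBc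
    rw [mul_assoc, ← hz2, h3, hε]
    push_cast
    ring
  rw [hz1 ψ, h1, ← mul_assoc, h4]
  push_cast
  ring

end

end Pool.Agent.AU
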