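import Pool.Agent.Lib_helper35.RS2.Defs2
import Pool.Agent.Lib_helper17.RS.P_PX1
import Pool.Agent.Lib_helper17.RS.P_PX2

/-!
# Integrality of elements of `ℚ[G]`, `G` cyclic of order `p ^ j`, at a prime `q` which generates
`(ℤ/p^j)ˣ`
-/

namespace Pool.Agent.AU

set_option linter.unusedSectionVars false

open Pool.Agent.RSK Pool.Agent.RS2

section

variable {G : Type} [CommGroup G] [Fintype G] {p j : ℕ} {P : Subgroup G}

attribute [-instance] MonoidHom.instPow MonoidHom.instZPow

theorem al_pow_apply (χ : G →* ℂˣ) (n : ℕ) (g : G) : (χ ^ n) g = χ g ^ n := by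
  induction n with
  | zero => rw [pow_zero, pow_zero]; rfl
  | succ n ih => rw [pow_succ, pow_succ, ← ih]; rfl

theorem al_dual_cyc (h : IsCyclic G) : IsCyclic (G →* ℂˣ) := by
  obtain ⟨e⟩ := CommGroup.monoidHom_mulEquiv_of_hasEnoughRootsOfUnity G ℂ
  exact isCyclic_of_surjective e.symm e.symm.surjective

theorem al_mem (hC : CycP p j P) (g : G) : g ∈ P ↔ g ^ p = 1 := by
  classical
  have hcyc := hC.cyc
  have h1 : ∀ g ∈ P, g ^ p = 1 := by
    intro g hg
    have h := pow_card_eq_one' (x := (⟨g, hg⟩ : P))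
    rw [hC.cardP] at h
    simpa [Subtype.ext_iff] using h
  refine ⟨h1 g, fun hg => ?_⟩
  have h2 : (Finset.univ.filter fun a : G => a ^ p = 1).card ≤ p :=
    IsCyclic.card_pow_eq_one_le hC.prime.pos
  have h3 : (Finset.univ.filter fun a : G => a ∈ P) ⊆ Finset.univ.filter fun a : G => a ^ p = 1 := by
    intro a ha
    simp only [Finset.mem_filter, Finset.mem_univ, true_and] at ha ⊢
    exact h1 a ha
  have h4 : (Finset.univ.filter fun a : G => a ∈ P).card = p := by
    rw [← hC.cardP, Nat.card_eq_fintype_card, Fintype.card_subtype]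
  have h5 := Finset.eq_of_subset_of_card_le h3 (by rw [h4]; exact h2)
  have h6 : g ∈ Finset.univ.filter fun a : G => a ∈ P := by
    rw [h5]
    simpa using hg
  simpa using h6

theorem al_pow_mem (hC : CycP p j P) (g : G) : g ^ p ^ (j - 1) ∈ P := by
  rw [al_mem hC, ← pow_mul, ← pow_succ, Nat.sub_add_cancel hC.pos, ← hC.card]
  exact pow_card_eq_one'

theorem al_exists_pow (hC : CycP p j P) {h : G} (hh : h ∈ P) : ∃ g : G, g ^ p ^ (j - 1) = h := by
  obtain ⟨g₀, hg₀⟩ := hC.cyc.exists_generator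
  have ho : orderOf g₀ = p ^ j := by
    rw [← hC.card]
    exact orderOf_eq_card_of_forall_mem_zpowers hg₀
  obtain ⟨n, hn⟩ := (mem_powers_iff_mem_zpowers (x := g₀) (y := h)).2 (hg₀ h)
  have hn' : g₀ ^ n = h := hn
  have h1 : g₀ ^ (n * p) = 1 := by
    rw [pow_mul, hn']
    exact (al_mem hC h).1 hh
  have h2 : p ^ j ∣ n * p := by
    rw [← ho]
    exact orderOf_dvd_of_pow_eq_one h1
  have h3 : p ^ (j - 1) ∣ n := by
    have e : p ^ j = p ^ (j - 1) * p := by rw [← pow_succ, Nat.sub_add_cancel hC.pos]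
    rw [e] at h2
    exact Nat.dvd_of_mul_dvd_mul_right hC.prime.pos h2
  obtain ⟨k, rfl⟩ := h3
  exact ⟨g₀ ^ k, by rw [← pow_mul, mul_comm k, hn']⟩

theorem al_fth (hC : CycP p j P) (χ : G →* ℂˣ) : Fth P χ ↔ orderOf χ = p ^ j := by
  have hp := hC.prime
  have hj : p ^ j = p ^ ((j - 1) + 1) := by rw [Nat.sub_add_cancel hC.pos]
  have h1 : χ ^ p ^ ((j - 1) + 1) = 1 := by
    ext g
    rw [al_pow_apply, ← map_pow, ← hj, ← hC.card, pow_card_eq_one', map_one]
    rfl
  have h2 : Fth P χ ↔ ¬ χ ^ p ^ (j - 1) = 1 := by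
    constructor
    · rintro ⟨h, hh, hne⟩ he
      obtain ⟨g, rfl⟩ := al_exists_pow hC hh
      apply hne
      rw [map_pow, ← al_pow_apply, he]
      rfl
    · intro hne
      by_contra hno
      apply hne
      ext g
      rw [al_pow_apply, ← map_pow]
      by_contra h
      exact hno ⟨_, al_pow_mem hC g, fun h' => h (by rw [h']; rfl)⟩
  rw [h2, hj]
  constructor
  · intro h
    have : Fact p.Prime := ⟨hp⟩
    exact orderOf_eq_prime_pow h h1
  · intro h he
    have h3 := orderOf_dvd_of_pow_eq_one he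
    rw [h] at h3
    have h4 := (Nat.pow_dvd_pow_iff_le_right hp.one_lt).1 h3
    omega

theorem al_nP_ev (hC : CycP p j P) (χ : G →* ℂˣ) :
    (Fth P χ → evZ χ (nP P) = 0) ∧ (¬ Fth P χ → evZ χ (nP P) = p) := by
  classical
  have h0 : evZ χ (nP P) = ∑ h : P, ((χ (h : G) : ℂˣ) : ℂ) := by
    rw [nP, finsum_eq_sum_of_fintype, map_sum]
    refine Finset.sum_congr rfl fun h _ => ?_
    show evQ χ (toQ G (MonoidAlgebra.single (h : G) 1)) = _
    have : toQ G (MonoidAlgebra.single (h : G) (1 : ℤ)) = MonoidAlgebra.single (h : G) (1 : ℚ) := by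
      simp [toQ]
    rw [this, px2_evQ_single]
    simp
  constructor
  · rintro ⟨g, hg, hne⟩
    rw [h0]
    have h1 : (((χ g : ℂˣ) : ℂ)) * ∑ h : P, ((χ (h : G) : ℂˣ) : ℂ) =
        ∑ h : P, ((χ (h : G) : ℂˣ) : ℂ) := by
      rw [Finset.mul_sum]
      refine Fintype.sum_equiv (Equiv.mulLeft (⟨g, hg⟩ : P)) _ _ fun h => ?_
      simp
    have h2 : (((χ g : ℂˣ) : ℂ) - 1) * ∑ h : P, ((χ (h : G) : ℂˣ) : ℂ) = 0 := by
      rw [sub_mul, h1, one_mul, sub_self]
    rcases mul_eq_zero.1 h2 with h | h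
    · exact absurd (Units.ext (by simpa using sub_eq_zero.1 h)) hne
    · exact h
  · intro hno
    rw [h0]
    have h1 : ∀ h : P, ((χ (h : G) : ℂˣ) : ℂ) = 1 := fun h => by
      have : χ (h : G) = 1 := by
        by_contra h'
        exact hno ⟨h, h.2, h'⟩
      rw [this]
      rfl
    rw [Finset.sum_congr rfl fun h _ => h1 h, Finset.sum_const, Finset.card_univ,
      ← Nat.card_eq_fintype_card, hC.cardP]
    simp

/-- the characters which are nontrivial on `P` are the powers `χ ^ (q ^ i)` of one of them -/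
theorem al_pF (hC : CycP p j P) {q : ℕ} (hqp : q.Coprime p)
    (hgen : ∀ x : (ZMod (p ^ j))ˣ, ∃ i : ℕ, (q : ZMod (p ^ j)) ^ i = x) :
    ∃ n : ℕ, 0 < n ∧ ∀ (χ : G →* ℂˣ), Fth P χ → ∀ F : (G →* ℂˣ) → ℂ,
      pF P F = ∏ i ∈ Finset.range n, F (χ ^ q ^ i) := by
  classical
  have hp := hC.prime
  have hpj : 0 < p ^ j := pow_pos hp.pos _
  have : NeZero (p ^ j) := ⟨hpj.ne'⟩
  have hco : q.Coprime (p ^ j) := Nat.Coprime.pow_right _ hqp
  set u : (ZMod (p ^ j))ˣ := ZMod.unitOfCoprime q hco with hu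
  have huv : (u : ZMod (p ^ j)) = q := ZMod.coe_unitOfCoprime q hco
  refine ⟨orderOf u, orderOf_pos u, fun χ hχ F => ?_⟩
  have hχo := (al_fth hC χ).1 hχ
  have hmem : ∀ i : ℕ, Fth P (χ ^ q ^ i) := fun i => by
    rw [al_fth hC, Nat.Coprime.orderOf_pow, hχo]
    rw [hχo]
    exact (Nat.Coprime.pow_left _ hco).symm
  have hcyc := al_dual_cyc hC.cyc
  have hfin : Finite (G →* ℂˣ) := px2_finite
  have hbij : Function.Bijective (fun i : Fin (orderOf u) =>
      (⟨χ ^ q ^ (i : ℕ), hmem i⟩ : {χ : G →* ℂˣ // Fth P χ})) := by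
    constructor
    · intro i i' h
      have h1 : χ ^ q ^ (i : ℕ) = χ ^ q ^ (i' : ℕ) := congrArg Subtype.val h
      have h1' := (pow_eq_pow_iff_modEq (x := χ)).1 h1
      rw [hχo] at h1'
      have h2 := (ZMod.natCast_eq_natCast_iff _ _ _).2 h1'
      have h3 : u ^ (i : ℕ) = u ^ (i' : ℕ) := by
        ext
        push_cast at h2 ⊢
        rw [huv]
        exact h2
      exact Fin.ext (pow_injOn_Iio_orderOf i.2 i'.2 h3)
    · rintro ⟨χ', hχ'⟩
      have hχ'o := (al_fth hC χ').1 hχ'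
      have h1 : χ' ∈ Subgroup.zpowers χ := by
        have : Subgroup.zpowers χ = ⊤ := by
          rw [← Subgroup.card_eq_iff_eq_top, Nat.card_zpowers, hχo, px2_card, hC.card]
        rw [this]
        trivial
      obtain ⟨k, hk⟩ := (mem_powers_iff_mem_zpowers (x := χ) (y := χ')).2 h1
      have hk' : χ ^ k = χ' := hk
      have hkc : k.Coprime (p ^ j) := by
        have h2 : orderOf (χ ^ k) = p ^ j := by rw [hk', hχ'o]
        have h2' : orderOf (χ ^ k) = orderOf χ / (orderOf χ).gcd k := orderOf_pow χ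
        rw [h2', hχo] at h2
        have h3 : 0 < (p ^ j).gcd k := Nat.gcd_pos_of_pos_left _ hpj
        have h4 : (p ^ j).gcd k = 1 := by
          have h5 := Nat.div_mul_cancel (Nat.gcd_dvd_left (p ^ j) k)
          rw [h2] at h5
          exact Nat.eq_of_mul_eq_mul_left hpj (by rw [h5, mul_one])
        exact (Nat.Coprime.symm h4)
      obtain ⟨i, hi⟩ := hgen (ZMod.unitOfCoprime k hkc)
      rw [ZMod.coe_unitOfCoprime] at hi
      refine ⟨⟨i % orderOf u, Nat.mod_lt _ (orderOf_pos u)⟩, Subtype.ext ?_⟩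
      show χ ^ q ^ (i % orderOf u) = χ'
      rw [← hk']
      refine (pow_eq_pow_iff_modEq (x := χ)).2 ?_
      rw [hχo, ← ZMod.natCast_eq_natCast_iff, ← hi]
      push_cast
      rw [← huv, ← Units.val_pow_eq_pow_val, pow_mod_orderOf, Units.val_pow_eq_pow_val]
  rw [pF, ← Fin.prod_univ_eq_prod_range (fun i => F (χ ^ q ^ i)), ← finprod_eq_prod_of_fintype]
  exact (finprod_eq_of_bijective _ hbij fun i => rfl).symm

/-- the endomorphism `g ↦ g ^ n` of the group ring -/
noncomputable def cpow (k : Type) [CommRing k] (G : Type) [CommGroup G] (n : ℕ) :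
    MonoidAlgebra k G →+* MonoidAlgebra k G :=
  MonoidAlgebra.mapDomainRingHom k (powMonoidHom n : G →* G)

theorem cpow_single (k : Type) [CommRing k] (n : ℕ) (g : G) (c : k) :
    cpow k G n (MonoidAlgebra.single g c) = MonoidAlgebra.single (g ^ n) c := by
  simp [cpow]

theorem cpow_ev (χ : G →* ℂˣ) (n : ℕ) (a : MonoidAlgebra ℤ G) :
    evZ χ (cpow ℤ G n a) = evZ (χ ^ n) a := by
  induction a using MonoidAlgebra.induction_on with
  | of g =>
    have h : MonoidAlgebra.of ℤ G g = MonoidAlgebra.single g 1 := rfl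
    rw [h, cpow_single]
    show evQ χ (toQ G _) = evQ (χ ^ n) (toQ G _)
    have : ∀ g : G, toQ G (MonoidAlgebra.single g (1 : ℤ)) = MonoidAlgebra.single g (1 : ℚ) := by
      intro g
      simp [toQ]
    rw [this, this, px2_evQ_single, px2_evQ_single, map_pow, al_pow_apply]
  | add a b ha hb => rw [map_add, map_add, map_add, ha, hb]
  | smul c a ha => rw [map_zsmul, map_zsmul, map_zsmul, ha]

theorem cpow_one (k : Type) [CommRing k] (a : MonoidAlgebra k G) : cpow k G 1 a = a := by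
  have : (powMonoidHom 1 : G →* G) = MonoidHom.id G := by
    ext g
    simp
  rw [cpow, this]
  simp

theorem cpow_cpow (k : Type) [CommRing k] (m n : ℕ) (a : MonoidAlgebra k G) :
    cpow k G m (cpow k G n a) = cpow k G (n * m) a := by
  induction a using MonoidAlgebra.induction_on with
  | of g =>
    have h : MonoidAlgebra.of k G g = MonoidAlgebra.single g 1 := rfl
    rw [h, cpow_single, cpow_single, cpow_single, pow_mul]
  | add a b ha hb => rw [map_add, map_add, map_add, ha, hb]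
  | smul c a ha =>
    have hs : ∀ (n : ℕ) (x : MonoidAlgebra k G), cpow k G n (c • x) = c • cpow k G n x := by
      intro n x
      rw [← mul_one (c • x), ← one_mul (c • x * 1)]
      simp [cpow]
    rw [hs, hs, hs, ha]

theorem al_frob {q : ℕ} (hq : q.Prime) (x : MonoidAlgebra (ZMod q) G) :
    x ^ q = cpow (ZMod q) G q x := by
  have : Fact q.Prime := ⟨hq⟩
  have : CharP (MonoidAlgebra (ZMod q) G) q :=
    charP_of_injective_algebraMap (algebraMap (ZMod q) (MonoidAlgebra (ZMod q) G)).injective q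
  induction x using MonoidAlgebra.induction_on with
  | of g =>
    have h : MonoidAlgebra.of (ZMod q) G g = MonoidAlgebra.single g 1 := rfl
    rw [h, cpow_single, MonoidAlgebra.single_pow, one_pow]
  | add a b ha hb => rw [map_add, add_pow_char, ha, hb]
  | smul c a ha =>
    have hs : ∀ (n : ℕ) (x : MonoidAlgebra (ZMod q) G),
        cpow (ZMod q) G n (c • x) = c • cpow (ZMod q) G n x := by
      intro n x
      simp [cpow]
    rw [hs, smul_pow, ZMod.pow_card, ha]

theorem al_frob_pow {q : ℕ} (hq : q.Prime) (s : ℕ) (x : MonoidAlgebra (ZMod q) G) :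
    x ^ q ^ s = cpow (ZMod q) G (q ^ s) x := by
  induction s with
  | zero => rw [pow_zero, pow_one, cpow_one]
  | succ s ih => rw [pow_succ, pow_mul, ih, al_frob hq, cpow_cpow]

theorem al_red {q : ℕ} (hq : q.Prime) (hG : q.Coprime (Nat.card G)) {x : MonoidAlgebra (ZMod q) G}
    {n : ℕ} (h : x ^ n = 0) : x = 0 := by
  have hφ : 0 < (Nat.card G).totient := Nat.totient_pos.2 Nat.card_pos
  set s := n * (Nat.card G).totient with hs
  have h1 : n ≤ q ^ s := by
    calc n ≤ s := Nat.le_mul_of_pos_right n hφ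
      _ ≤ q ^ s := (Nat.lt_pow_self hq.one_lt).le
  have h2 : x ^ q ^ s = 0 := by
    rw [← Nat.sub_add_cancel h1, pow_add, h, mul_zero]
  have h3 : cpow (ZMod q) G (q ^ s) x = x := by
    have e : (powMonoidHom (q ^ s) : G →* G) = MonoidHom.id G := by
      ext g
      show g ^ q ^ s = g
      have h4 : q ^ s ≡ 1 [MOD Nat.card G] := by
        rw [hs, mul_comm, pow_mul]
        have := (Nat.ModEq.pow_totient hG).pow n
        rwa [one_pow] at this
      have h5 : g ^ q ^ s = g ^ 1 := by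
        rw [pow_eq_pow_iff_modEq]
        exact h4.of_dvd (orderOf_dvd_natCard g)
      rw [h5, pow_one]
    rw [cpow, e]
    simp
  rw [← h3, ← al_frob_pow hq, h2]

theorem al_dvd_of_red {q : ℕ} (a : MonoidAlgebra ℤ G)
    (h : MonoidAlgebra.mapRingHom G (Int.castRingHom (ZMod q)) a = 0) :
    ∃ b : MonoidAlgebra ℤ G, a = (q : ℤ) • b := by
  classical
  have h1 : ∀ g : G, (q : ℤ) ∣ a.coeff g := by
    intro g
    have h2 : (MonoidAlgebra.mapRingHom G (Int.castRingHom (ZMod q)) a).coeff g = 0 := by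
      rw [h]
      rfl
    rw [MonoidAlgebra.coeff_mapRingHom] at h2
    exact (ZMod.intCast_zmod_eq_zero_iff_dvd _ _).1 h2
  refine ⟨∑ g : G, MonoidAlgebra.single g (a.coeff g / q), ?_⟩
  ext g
  rw [MonoidAlgebra.coeff_smul, MonoidAlgebra.coeff_sum]
  simp only [Finsupp.coe_smul, Pi.smul_apply, Finsupp.coe_finsetSum, Finset.sum_apply,
    MonoidAlgebra.coeff_single, smul_eq_mul]
  rw [Finset.sum_eq_single g]
  · rw [Finsupp.single_eq_same, Int.mul_ediv_cancel' (h1 g)]
  · intro b _ hb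
    rw [Finsupp.single_eq_of_ne (by simpa using hb.symm)]
  · intro h'
    exact absurd (Finset.mem_univ g) h'

theorem al_red_cpow (q n : ℕ) (a : MonoidAlgebra ℤ G) :
    MonoidAlgebra.mapRingHom G (Int.castRingHom (ZMod q)) (cpow ℤ G n a) =
      cpow (ZMod q) G n (MonoidAlgebra.mapRingHom G (Int.castRingHom (ZMod q)) a) := by
  induction a using MonoidAlgebra.induction_on with
  | of g =>
    have h : MonoidAlgebra.of ℤ G g = MonoidAlgebra.single g 1 := rfl
    rw [h, cpow_single]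
    simp [cpow_single]
  | add a b ha hb => rw [map_add, map_add, map_add, map_add, ha, hb]
  | smul c a ha => rw [map_zsmul, map_zsmul, map_zsmul, map_zsmul, ha]

theorem al_toQ_inj {a b : MonoidAlgebra ℤ G} (h : toQ G a = toQ G b) : a = b := by
  ext g
  have h1 : (toQ G a).coeff g = (toQ G b).coeff g := by rw [h]
  rw [toQ, MonoidAlgebra.coeff_mapRingHom, MonoidAlgebra.coeff_mapRingHom] at h1
  simpa using h1

theorem al_evZ (χ : G →* ℂˣ) (a : MonoidAlgebra ℤ G) : evQ χ (toQ G a) = evZ χ a := rfl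

theorem al_exists_fth (hC : CycP p j P) : ∃ χ : G →* ℂˣ, Fth P χ := by
  have hcyc := al_dual_cyc hC.cyc
  have hfin : Finite (G →* ℂˣ) := px2_finite
  obtain ⟨χ, hχ⟩ := hcyc.exists_generator
  refine ⟨χ, (al_fth hC χ).2 ?_⟩
  rw [orderOf_eq_card_of_forall_mem_zpowers hχ, px2_card, hC.card]

theorem al_div (hC : CycP p j P) {q : ℕ} (hq : q.Prime) (hqp : q ≠ p)
    (hgen : ∀ x : (ZMod (p ^ j))ˣ, ∃ i : ℕ, (q : ZMod (p ^ j)) ^ i = x)
    (a : MonoidAlgebra ℤ G) (ha : nP P * a = 0) (t : ℤ)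
    (ht : pF P (fun χ => evZ χ a) = q * t) : ∃ b : MonoidAlgebra ℤ G, a = (q : ℤ) • b := by
  classical
  have hp := hC.prime
  have hco : q.Coprime p := (Nat.coprime_primes hq hp).2 hqp
  obtain ⟨n, hn, hpF⟩ := al_pF hC hco hgen
  set N : MonoidAlgebra ℤ G := ∏ i ∈ Finset.range n, cpow ℤ G (q ^ i) a with hN
  have hev : ∀ χ : G →* ℂˣ, evZ χ N = ∏ i ∈ Finset.range n, evZ (χ ^ q ^ i) a := by
    intro χ
    rw [hN, map_prod]
    exact Finset.prod_congr rfl fun i _ => cpow_ev χ _ a
  have h1 : (p : ℤ) • N = (q * t) • ((p : ℤ) • (1 : MonoidAlgebra ℤ G) - nP P) := by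
    apply al_toQ_inj
    apply evQ_inj
    intro χ
    rw [al_evZ, al_evZ, map_zsmul, map_zsmul, map_sub, map_zsmul, map_one]
    by_cases hχ : Fth P χ
    · rw [hev, ← hpF χ hχ (fun χ => evZ χ a), ht, (al_nP_ev hC χ).1 hχ]
      simp only [zsmul_eq_mul]
      push_cast
      ring
    · have h2 : evZ χ a = 0 := by
        have h3 : evZ χ (nP P * a) = 0 := by rw [ha, map_zero]
        rw [map_mul, (al_nP_ev hC χ).2 hχ] at h3
        rcases mul_eq_zero.1 h3 with h | h
        · exact absurd h (Nat.cast_ne_zero.2 hp.pos.ne')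
        · exact h
      have h3 : evZ χ N = 0 := by
        rw [hev]
        refine Finset.prod_eq_zero (i := 0) (Finset.mem_range.2 hn) ?_
        rw [pow_zero, pow_one, h2]
      rw [h3, (al_nP_ev hC χ).2 hχ]
      simp
  apply al_dvd_of_red
  set ρ := MonoidAlgebra.mapRingHom G (Int.castRingHom (ZMod q)) with hρ
  have : Fact q.Prime := ⟨hq⟩
  have h2 : ρ N = 0 := by
    have h3 : ρ ((p : ℤ) • N) = 0 := by
      rw [h1, map_zsmul, mul_smul]
      have h4 : ∀ x : MonoidAlgebra (ZMod q) G, (q : ℤ) • x = 0 := by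
        intro x
        rw [zsmul_eq_mul]
        have h5 : ((q : ℤ) : MonoidAlgebra (ZMod q) G) =
            algebraMap (ZMod q) (MonoidAlgebra (ZMod q) G) ((q : ℤ) : ZMod q) := by
          rw [map_intCast]
        rw [h5]
        simp
      rw [h4]
    rw [map_zsmul] at h3
    have h4 : ∀ x : MonoidAlgebra (ZMod q) G, (p : ℤ) • x = ((p : ZMod q)) • x := by
      intro x
      rw [zsmul_eq_mul, Algebra.smul_def]
      congr 1
      rw [map_natCast]
      push_cast
      rfl
    rw [h4] at h3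
    have h5 : (p : ZMod q) ≠ 0 := by
      rw [Ne, ZMod.natCast_eq_zero_iff]
      intro h6
      exact hqp ((Nat.prime_dvd_prime_iff_eq hq hp).1 h6)
    exact (smul_eq_zero.1 h3).resolve_left h5
  have h3 : ρ N = ρ a ^ (∑ i ∈ Finset.range n, q ^ i) := by
    rw [hN, map_prod, ← Finset.prod_pow_eq_pow_sum]
    refine Finset.prod_congr rfl fun i _ => ?_
    rw [hρ, al_red_cpow, al_frob_pow hq]
  have hcG : q.Coprime (Nat.card G) := by
    rw [hC.card]
    exact Nat.Coprime.pow_right _ hco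
  exact al_red hq hcG (by rw [← h3, h2])

theorem al_pF_smul (P : Subgroup G) (m : ℂ) (φ : (G →* ℂˣ) → ℂ) :
    pF P (fun χ => m * φ χ) = m ^ (Nat.card {χ : G →* ℂˣ // Fth P χ}) * pF P φ := by
  classical
  have hfin : Finite (G →* ℂˣ) := px2_finite
  let _ : Fintype {χ : G →* ℂˣ // Fth P χ} := Fintype.ofFinite _
  rw [pF, pF, finprod_eq_prod_of_fintype, finprod_eq_prod_of_fintype, Finset.prod_mul_distrib,
    Finset.prod_const, Finset.card_univ, Nat.card_eq_fintype_card]

/-- integrality at a prime `q` generating `(ℤ/p^j)ˣ` -/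
theorem alg_l (hC : CycP p j P) {q : ℕ} (hq : q.Prime) (hqp : q ≠ p)
    (hgen : ∀ x : (ZMod (p ^ j))ˣ, ∃ i : ℕ, (q : ZMod (p ^ j)) ^ i = x)
    (y : MonoidAlgebra ℚ G) (hy : toQ G (nP P) * y = 0) (t : ℤ)
    (ht : pF P (fun χ => evQ χ y) = t) :
    ∃ (m : ℕ) (a : MonoidAlgebra ℤ G), ¬ q ∣ m ∧ MonoidAlgebra.single 1 (m : ℚ) * y = toQ G a := by
  classical
  have hp := hC.prime
  have hfin : Finite (G →* ℂˣ) := px2_finite
  -- a common denominator
  have hden : ∃ (N : ℕ) (a : MonoidAlgebra ℤ G), 0 < N ∧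
      MonoidAlgebra.single 1 (N : ℚ) * y = toQ G a := by
    refine ⟨∏ g : G, (y.coeff g).den, ∑ g : G, MonoidAlgebra.single g
      ((y.coeff g).num * ∏ g' ∈ Finset.univ.erase g, ((y.coeff g').den : ℤ)), 
      Finset.prod_pos fun g _ => (y.coeff g).pos, ?_⟩
    ext g
    rw [MonoidAlgebra.coeff_single_mul_apply, toQ, MonoidAlgebra.coeff_mapRingHom,
      MonoidAlgebra.coeff_sum]
    simp only [MonoidAlgebra.coeff_single, Finsupp.coe_finsetSum, Finset.sum_apply]
    rw [Finset.sum_eq_single g]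
    · rw [Finsupp.single_eq_same, inv_one, one_mul, ← Finset.mul_prod_erase _ _ (Finset.mem_univ g)]
      push_cast
      have := Rat.den_mul_eq_num (y.coeff g)
      simp only [eq_intCast, Int.cast_mul, Int.cast_prod, Int.cast_natCast]
      rw [← this]
      ring
    · intro b _ hb
      rw [Finsupp.single_eq_of_ne (by simpa using hb.symm)]
    · intro h'
      exact absurd (Finset.mem_univ g) h'
  -- the induction
  have key : ∀ (v m : ℕ) (a : MonoidAlgebra ℤ G), ¬ q ∣ m →
      MonoidAlgebra.single 1 ((q ^ v * m : ℕ) : ℚ) * y = toQ G a →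
      ∃ (m : ℕ) (a : MonoidAlgebra ℤ G), ¬ q ∣ m ∧
        MonoidAlgebra.single 1 (m : ℚ) * y = toQ G a := by
    intro v
    induction v with
    | zero =>
      intro m a hm h
      exact ⟨m, a, hm, by simpa using h⟩
    | succ v ih =>
      intro m a hm h
      have ha : nP P * a = 0 := by
        apply al_toQ_inj
        rw [map_mul, ← h, map_zero, mul_left_comm, hy, mul_zero]
      have hev : ∀ χ : G →* ℂˣ, evZ χ a = ((q ^ (v + 1) * m : ℕ) : ℂ) * evQ χ y := by
        intro χ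
        rw [← al_evZ, ← h, map_mul, px2_evQ_single, map_one]
        simp
      obtain ⟨s, hs⟩ : ∃ s : ℕ, Nat.card {χ : G →* ℂˣ // Fth P χ} = s + 1 := by
        have : 0 < Nat.card {χ : G →* ℂˣ // Fth P χ} := by
          obtain ⟨χ, hχ⟩ := al_exists_fth hC
          have : Nonempty {χ : G →* ℂˣ // Fth P χ} := ⟨⟨χ, hχ⟩⟩
          exact Nat.card_pos
        exact ⟨_, (Nat.succ_pred_eq_of_pos this).symm⟩
      have hpF : pF P (fun χ => evZ χ a) = q * ((q ^ v * m * (q ^ (v + 1) * m) ^ s * t : ℤ) : ℂ) := by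
        have e : (fun χ => evZ χ a) = fun χ => ((q ^ (v + 1) * m : ℕ) : ℂ) * evQ χ y := by
          funext χ
          exact hev χ
        rw [e, al_pF_smul, ht, hs]
        push_cast
        ring
      obtain ⟨b, hb⟩ := al_div hC hq hqp hgen a ha _ hpF
      refine ih m b hm ?_
      have hq0 : (q : ℚ) ≠ 0 := Nat.cast_ne_zero.2 hq.pos.ne'
      have h2 : (q : ℚ) • (MonoidAlgebra.single 1 ((q ^ v * m : ℕ) : ℚ) * y) = (q : ℚ) • toQ G b := by
        have h3 : (q : ℚ) • toQ G b = toQ G a := by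
          rw [hb, map_zsmul, Int.cast_smul_eq_zsmul ℚ (q : ℤ) (toQ G b) |>.symm]
          simp
        rw [h3, ← h, ← smul_mul_assoc, MonoidAlgebra.smul_single]
        congr 2
        push_cast
        simp only [smul_eq_mul]
        ring
      exact smul_right_injective _ hq0 h2
  obtain ⟨N, a, hN, hNa⟩ := hden
  obtain ⟨v, m, hm, hvm⟩ := Nat.exists_eq_pow_mul_and_not_dvd hN.ne' q hq.ne_one
  exact key v m a hm (by rw [← hvm]; exact hNa)

end

end Pool.Agent.AU
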