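import Pool.Agent.Lib_helper35.RS2.P_GP
import Pool.Agent.Lib_helper35.RS2.P_UQ2
import Pool.Agent.Lib_helper3.AU.AL

/-!
# A family of `r` elements of finite index in the new part of a module
-/

namespace Pool.Agent.AU

set_option linter.unusedSectionVars false

open Pool.Agent.RSK Pool.Agent.RS2
open Polynomial

section

variable {G : Type} [CommGroup G] [Fintype G] {p j : ℕ} {P : Subgroup G}

/-- `X ↦ σ` -/
noncomputable def bsA (σ : G) : ℤ[X] →+* MonoidAlgebra ℤ G :=
  (Polynomial.aeval (MonoidAlgebra.single σ (1 : ℤ))).toRingHom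

theorem bs_X (σ : G) (k : ℕ) : bsA σ (X ^ k) = MonoidAlgebra.single (σ ^ k) 1 := by
  show Polynomial.aeval _ _ = _
  rw [Polynomial.aeval_X_pow, MonoidAlgebra.single_pow, one_pow]

theorem bs_ev (σ : G) (χ : G →* ℂˣ) (Q : ℤ[X]) :
    evZ χ (bsA σ Q) = Polynomial.eval₂ (Int.castRingHom ℂ) ((χ σ : ℂˣ) : ℂ) Q := by
  have h : (evZ χ).comp (bsA σ) = Polynomial.eval₂RingHom (Int.castRingHom ℂ) ((χ σ : ℂˣ) : ℂ) := by
    apply Polynomial.ringHom_ext
    · intro a
      simp
    · show evZ χ (bsA σ X) = _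
      have := bs_X σ 1
      rw [pow_one, pow_one] at this
      rw [this, l2_evZ_single]
      simp
  exact congrArg (fun f => f Q) h

theorem bs_surj {σ : G} (hσ : ∀ g : G, g ∈ Subgroup.zpowers σ) (a : MonoidAlgebra ℤ G) :
    ∃ Q : ℤ[X], bsA σ Q = a := by
  induction a using MonoidAlgebra.induction_on with
  | of g =>
    obtain ⟨k, hk⟩ := (mem_powers_iff_mem_zpowers (x := σ) (y := g)).2 (hσ g)
    refine ⟨X ^ k, ?_⟩
    have hk' : σ ^ k = g := hk
    rw [bs_X, hk']
    rfl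
  | add a b ha hb =>
    obtain ⟨P, rfl⟩ := ha
    obtain ⟨Q, rfl⟩ := hb
    exact ⟨P + Q, map_add _ _ _⟩
  | smul c a ha =>
    obtain ⟨P, rfl⟩ := ha
    exact ⟨c • P, map_zsmul _ _ _⟩

theorem bs_cyc (hC : CycP p j P) {σ : G} (hσ : ∀ g : G, g ∈ Subgroup.zpowers σ) :
    bsA σ (cyclotomic (p ^ j) ℤ) = nP P := by
  have hp := hC.prime
  have : Fact p.Prime := ⟨hp⟩
  apply al_toQ_inj
  apply evQ_inj
  intro χ
  rw [al_evZ, al_evZ, bs_ev]
  by_cases hχ : Fth P χ
  · rw [(al_nP_ev hC χ).1 hχ]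
    have h1 := fth_prim hC hσ hχ
    have h2 : Polynomial.eval ((χ σ : ℂˣ) : ℂ) (cyclotomic (p ^ j) ℂ) = 0 :=
      h1.isRoot_cyclotomic (pow_pos hp.pos j)
    rw [← Polynomial.map_cyclotomic_int, Polynomial.eval_map] at h2
    exact h2
  · rw [(al_nP_ev hC χ).2 hχ]
    have h3 : ((χ σ : ℂˣ) : ℂ) ^ p ^ (j - 1) = 1 := by
      have h4 : χ (σ ^ p ^ (j - 1)) = 1 := by
        by_contra h5
        exact hχ ⟨_, al_pow_mem hC σ, h5⟩
      rw [← Units.val_pow_eq_pow_val, ← map_pow, h4]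
      rfl
    have hj : j = (j - 1) + 1 := (Nat.sub_add_cancel hC.pos).symm
    rw [hj, Polynomial.cyclotomic_prime_pow_eq_geom_sum hp, Polynomial.eval₂_finsetSum]
    simp only [Polynomial.eval₂_pow, Polynomial.eval₂_X]
    rw [h3]
    simp

/-- every `a` is a combination of `1, σ, …, σ^(q-1)` modulo `nP` -/
theorem bs_red (hC : CycP p j P) {σ : G} (hσ : ∀ g : G, g ∈ Subgroup.zpowers σ) {q : ℕ}
    (hq : q = p ^ (j - 1) * (p - 1)) (a : MonoidAlgebra ℤ G) :
    ∃ (c : Fin q → ℤ) (γ : MonoidAlgebra ℤ G),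
      a = (∑ k : Fin q, MonoidAlgebra.single (σ ^ (k : ℕ)) (c k)) + γ * nP P := by
  have hp := hC.prime
  obtain ⟨Q, rfl⟩ := bs_surj hσ a
  set Φ := cyclotomic (p ^ j) ℤ with hΦ
  have hmon : Φ.Monic := cyclotomic.monic _ _
  have hdeg : Φ.natDegree = q := by
    rw [hΦ, natDegree_cyclotomic, Nat.totient_prime_pow hp hC.pos, hq]
  have h1 := Polynomial.modByMonic_add_div Q Φ
  set B := Q %ₘ Φ with hB
  have h2 : B.natDegree < q ∨ q = 0 := by
    by_cases hq0 : q = 0
    · exact Or.inr hq0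
    · left
      rw [← hdeg]
      refine Polynomial.natDegree_modByMonic_lt Q hmon ?_
      intro h
      rw [h, natDegree_one] at hdeg
      exact hq0 hdeg.symm
  have hq1 : 0 < q := by
    rw [hq]
    exact Nat.mul_pos (pow_pos hp.pos _) (Nat.sub_pos_of_lt hp.one_lt)
  have h3 : B.natDegree < q := h2.resolve_right hq1.ne'
  refine ⟨fun k => B.coeff k, bsA σ (Q /ₘ Φ), ?_⟩
  have h4 : bsA σ Q = bsA σ B + bsA σ (Q /ₘ Φ) * nP P := by
    conv_lhs => rw [← h1]
    rw [map_add, map_mul, bs_cyc hC hσ, mul_comm]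
  rw [h4]
  congr 1
  conv_lhs => rw [Polynomial.as_sum_range' B q h3]
  rw [map_sum, ← Fin.sum_univ_eq_sum_range (fun k => bsA σ (Polynomial.monomial k (B.coeff k)))]
  refine Finset.sum_congr rfl fun k _ => ?_
  show Polynomial.aeval _ _ = _
  rw [Polynomial.aeval_monomial, MonoidAlgebra.single_pow, one_pow, ← Algebra.smul_def]
  simp

/-- an element with nonvanishing values divides an integer on the new part -/
theorem bs_inv
    (hdiv : ∀ y : MonoidAlgebra ℚ G, (∀ χ : G →* ℂˣ, Fth P χ → evQ χ y ≠ 0) →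
      ∃ z : MonoidAlgebra ℚ G, ∀ χ : G →* ℂˣ, Fth P χ → evQ χ z * evQ χ y = 1)
    (a : MonoidAlgebra ℤ G) (ha : ∀ χ : G →* ℂˣ, Fth P χ → evZ χ a ≠ 0) :
    ∃ (n : ℤ) (β : MonoidAlgebra ℤ G), n ≠ 0 ∧ ∀ χ : G →* ℂˣ, Fth P χ → evZ χ (β * a) = n := by
  classical
  obtain ⟨z, hz⟩ := hdiv (toQ G a) ha
  refine ⟨∏ g : G, ((z.coeff g).den : ℤ), ∑ g : G, MonoidAlgebra.single g
      ((z.coeff g).num * ∏ g' ∈ Finset.univ.erase g, ((z.coeff g').den : ℤ)),
    Finset.prod_ne_zero_iff.2 fun g _ => by exact_mod_cast (z.coeff g).pos.ne', fun χ hχ => ?_⟩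
  set N : ℤ := ∏ g : G, ((z.coeff g).den : ℤ) with hN
  have h1 : toQ G (∑ g : G, MonoidAlgebra.single g
      ((z.coeff g).num * ∏ g' ∈ Finset.univ.erase g, ((z.coeff g').den : ℤ))) =
      MonoidAlgebra.single 1 (N : ℚ) * z := by
    ext g
    rw [MonoidAlgebra.coeff_single_mul_apply, toQ, MonoidAlgebra.coeff_mapRingHom,
      MonoidAlgebra.coeff_sum]
    simp only [MonoidAlgebra.coeff_single, Finsupp.coe_finsetSum, Finset.sum_apply]
    rw [Finset.sum_eq_single g]
    · rw [Finsupp.single_eq_same, inv_one, one_mul, hN,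
        ← Finset.mul_prod_erase _ _ (Finset.mem_univ g)]
      have := Rat.den_mul_eq_num (z.coeff g)
      push_cast
      simp only [eq_intCast, Int.cast_mul, Int.cast_prod, Int.cast_natCast]
      rw [← this]
      ring
    · intro b _ hb
      rw [Finsupp.single_eq_of_ne (by simpa using hb.symm)]
    · intro h'
      exact absurd (Finset.mem_univ g) h'
  rw [map_mul, ← al_evZ, h1, map_mul, px2_evQ_single, map_one]
  have h2 := hz χ hχ
  rw [al_evZ] at h2
  rw [mul_assoc, h2]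
  simp

variable {M : Type} [AddCommGroup M] [Module (MonoidAlgebra ℤ G) M]

/-- an element of `ℤ[G]` with vanishing values kills the new part -/
theorem bs_kill (hC : CycP p j P) [Module.IsTorsionFree ℤ M] (a : MonoidAlgebra ℤ G)
    (ha : ∀ χ : G →* ℂˣ, Fth P χ → evZ χ a = 0) (m : M) (hm : nP P • m = 0) : a • m = 0 := by
  have h1 : a * ((p : ℤ) • (1 : MonoidAlgebra ℤ G) - nP P) = 0 := by
    apply al_toQ_inj
    apply evQ_inj
    intro χ
    rw [al_evZ, map_mul, map_sub, map_zsmul, map_one, map_zero, map_zero]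
    by_cases hχ : Fth P χ
    · rw [ha χ hχ, zero_mul]
    · rw [(al_nP_ev hC χ).2 hχ]
      simp
  have h2 : (p : ℤ) • (a • m) = 0 := by
    have h3 := congrArg (fun x => x • m) h1
    simp only [zero_smul, mul_sub, sub_smul, mul_smul_comm, mul_one, mul_smul, hm, smul_zero,
      sub_zero, smul_assoc] at h3
    exact h3
  exact (smul_eq_zero.1 h2).resolve_left (by exact_mod_cast hC.prime.pos.ne')

/-- the `ℤ`-family `σ^k b_i` -/
noncomputable def bsV (σ : G) (q : ℕ) {s : ℕ} (b : Fin s → M) (x : Fin s × Fin q) : M :=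
  MonoidAlgebra.single (σ ^ (x.2 : ℕ)) (1 : ℤ) • b x.1

theorem bs_sum (σ : G) (q : ℕ) {s : ℕ} (b : Fin s → M) (n : Fin s × Fin q → ℤ) :
    ∑ x, n x • bsV σ q b x =
      ∑ i : Fin s, (∑ k : Fin q, MonoidAlgebra.single (σ ^ (k : ℕ)) (n (i, k))) • b i := by
  rw [Fintype.sum_prod_type]
  refine Finset.sum_congr rfl fun i _ => ?_
  rw [Finset.sum_smul]
  refine Finset.sum_congr rfl fun k _ => ?_
  have h1 : (MonoidAlgebra.single (σ ^ (k : ℕ)) (n (i, k)) : MonoidAlgebra ℤ G) =
      n (i, k) • MonoidAlgebra.single (σ ^ (k : ℕ)) (1 : ℤ) := by simp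
  rw [h1, smul_assoc]
  rfl

/-- the `ℤ[G]`-span and the `ℤ`-span agree on the new part -/
theorem bs_span (hC : CycP p j P) {σ : G} (hσ : ∀ g : G, g ∈ Subgroup.zpowers σ) {q : ℕ}
    (hq : q = p ^ (j - 1) * (p - 1)) {s : ℕ} (b : Fin s → M) (hb : ∀ i, nP P • b i = 0)
    (a : Fin s → MonoidAlgebra ℤ G) :
    ∑ i, a i • b i ∈ Submodule.span ℤ (Set.range (bsV σ q b)) := by
  refine Submodule.sum_mem _ fun i _ => ?_
  obtain ⟨c, γ, h⟩ := bs_red hC hσ hq (a i)
  rw [h, add_smul, mul_smul, hb, smul_zero, add_zero, Finset.sum_smul]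
  refine Submodule.sum_mem _ fun k _ => ?_
  have h1 : (MonoidAlgebra.single (σ ^ (k : ℕ)) (c k) : MonoidAlgebra ℤ G) =
      c k • MonoidAlgebra.single (σ ^ (k : ℕ)) (1 : ℤ) := by simp
  rw [h1, smul_assoc]
  exact Submodule.smul_mem _ _ (Submodule.subset_span ⟨(i, k), rfl⟩)

theorem bs_exists (hC : CycP p j P) [Module.Finite ℤ M] [Module.IsTorsionFree ℤ M]
    (hdiv : ∀ y : MonoidAlgebra ℚ G, (∀ χ : G →* ℂˣ, Fth P χ → evQ χ y ≠ 0) →
      ∃ z : MonoidAlgebra ℚ G, ∀ χ : G →* ℂˣ, Fth P χ → evQ χ z * evQ χ y = 1)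
    {σ : G} (hσ : ∀ g : G, g ∈ Subgroup.zpowers σ) {q : ℕ}
    (hq : q = p ^ (j - 1) * (p - 1)) {r : ℕ} (hrk : Module.finrank ℤ (mM P M) = r * q)
    (s : ℕ) (hs : s ≤ r) :
    ∃ b : Fin s → M, (∀ i, nP P • b i = 0) ∧ LinearIndependent ℤ (bsV σ q b) := by
  classical
  obtain ⟨χ₀, hχ₀⟩ := fth_exists hC
  have hq1 : 0 < q := by
    rw [hq]
    exact Nat.mul_pos (pow_pos hC.prime.pos _) (Nat.sub_pos_of_lt hC.prime.one_lt)
  let N : Submodule ℤ M := AddSubgroup.toIntSubmodule (mM P M)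
  have hN : ∀ u, u ∈ N ↔ nP P • u = 0 := fun u => Iff.rfl
  induction s with
  | zero => exact ⟨Fin.elim0, fun i => i.elim0, linearIndependent_empty_type⟩
  | succ s ih =>
    obtain ⟨b, hb, hind⟩ := ih (by omega)
    -- the family in `N`
    let v : Fin s × Fin q → N := fun x => ⟨bsV σ q b x, by
      rw [hN, bsV, smul_smul, mul_comm, ← smul_smul, hb, smul_zero]⟩
    have hindN : LinearIndependent ℤ v := by
      have : (N.subtype ∘ v) = bsV σ q b := rfl
      rw [← this] at hind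
      exact hind.of_comp
    have hfr : Module.finrank ℤ (N ⧸ Submodule.span ℤ (Set.range v)) ≠ 0 := by
      have h1 := Submodule.finrank_quotient_add_finrank (Submodule.span ℤ (Set.range v))
      rw [finrank_span_eq_card hindN] at h1
      have h2 : Module.finrank ℤ N = r * q := hrk
      rw [h2] at h1
      simp only [Fintype.card_prod, Fintype.card_fin] at h1
      have h3 : s * q < r * q := Nat.mul_lt_mul_of_pos_right (by omega) hq1
      omega
    have hnt : ¬ Module.IsTorsion ℤ (N ⧸ Submodule.span ℤ (Set.range v)) := fun h =>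
      hfr ((Module.finrank_eq_zero_iff_isTorsion (R := ℤ)).2 h)
    obtain ⟨m', hm'⟩ : ∃ m' : N ⧸ Submodule.span ℤ (Set.range v), ∀ n : ℤ, n ≠ 0 → n • m' ≠ 0 := by
      by_contra hno
      push Not at hno
      apply hnt
      intro x
      obtain ⟨n, hn, hx⟩ := hno x
      exact ⟨⟨n, mem_nonZeroDivisors_of_ne_zero hn⟩, hx⟩
    obtain ⟨m, rfl⟩ := Submodule.Quotient.mk_surjective _ m'
    have hmm : nP P • (m : M) = 0 := m.2
    have hm : ∀ n : ℤ, n ≠ 0 → n • (m : M) ∉ Submodule.span ℤ (Set.range (bsV σ q b)) := by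
      intro n hn hmem
      apply hm' n hn
      rw [← Submodule.Quotient.mk_smul, Submodule.Quotient.mk_eq_zero]
      rw [Submodule.mem_span_range_iff_exists_fun] at hmem ⊢
      obtain ⟨c, hc⟩ := hmem
      refine ⟨c, Subtype.ext ?_⟩
      rw [Submodule.coe_sum]
      exact hc
    refine ⟨Fin.snoc (α := fun _ => M) b (m : M), ?_, ?_⟩
    · intro i
      refine Fin.lastCases ?_ (fun i => ?_) i
      · rw [Fin.snoc_last, hmm]
      · rw [Fin.snoc_castSucc, hb]
    · rw [Fintype.linearIndependent_iff]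
      intro n hn
      rw [bs_sum, Fin.sum_univ_castSucc] at hn
      simp only [Fin.snoc_castSucc, Fin.snoc_last] at hn
      set α : MonoidAlgebra ℤ G := ∑ k : Fin q, MonoidAlgebra.single (σ ^ (k : ℕ)) (n (Fin.last s, k))
        with hα
      -- the last coefficients vanish
      have hlast : ∀ k, n (Fin.last s, k) = 0 := by
        by_contra hno
        push Not at hno
        have hαne : ∀ χ : G →* ℂˣ, Fth P χ → evZ χ α ≠ 0 := by
          intro χ hχ h0
          obtain ⟨k, hk⟩ := hno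
          exact hk (uq2_indep hC hσ hq (fun k => n (Fin.last s, k)) hχ h0 k)
        obtain ⟨n₀, β, hn₀, hβ⟩ := bs_inv hdiv α hαne
        have h1 : (β * α) • (m : M) = n₀ • (m : M) := by
          have h2 : (β * α - n₀ • (1 : MonoidAlgebra ℤ G)) • (m : M) = 0 := by
            apply bs_kill hC _ _ _ hmm
            intro χ hχ
            rw [map_sub, hβ χ hχ, map_zsmul, map_one]
            simp
          rw [sub_smul, smul_assoc, one_smul] at h2
          exact sub_eq_zero.1 h2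
        apply hm n₀ hn₀
        rw [← h1, mul_smul]
        have h3 : α • (m : M) = - ∑ i : Fin s, (∑ k : Fin q,
            MonoidAlgebra.single (σ ^ (k : ℕ)) (n (i.castSucc, k))) • b i := by
          rw [eq_neg_iff_add_eq_zero, add_comm]
          exact hn
        rw [h3, smul_neg, Finset.smul_sum]
        refine Submodule.neg_mem _ ?_
        simp only [smul_smul]
        exact bs_span hC hσ hq b hb _
      have hα0 : α = 0 := by
        rw [hα]
        refine Finset.sum_eq_zero fun k _ => ?_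
        rw [hlast k, MonoidAlgebra.single_zero]
      rw [hα0, zero_smul, add_zero] at hn
      rw [Fintype.linearIndependent_iff] at hind
      have h4 := hind (fun x => n (x.1.castSucc, x.2)) (by rw [bs_sum]; exact hn)
      rintro ⟨i, k⟩
      refine Fin.lastCases ?_ (fun i => ?_) i
      · exact hlast k
      · exact h4 (i, k)

/-- `r` elements of the new part of rank `r` whose span has finite index -/
theorem bs_main (hC : CycP p j P) [Module.Finite ℤ M] [Module.IsTorsionFree ℤ M]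
    (hdiv : ∀ y : MonoidAlgebra ℚ G, (∀ χ : G →* ℂˣ, Fth P χ → evQ χ y ≠ 0) →
      ∃ z : MonoidAlgebra ℚ G, ∀ χ : G →* ℂˣ, Fth P χ → evQ χ z * evQ χ y = 1)
    {r : ℕ} (hrk : Module.finrank ℤ (mM P M) = r * (p ^ (j - 1) * (p - 1))) :
    ∃ b : Fin r → M, (∀ i, nP P • b i = 0) ∧ (mSpn G b).relIndex (mM P M) ≠ 0 := by
  classical
  obtain ⟨σ, hσ⟩ := hC.cyc.exists_generator
  obtain ⟨b, hb, hind⟩ := bs_exists hC hdiv hσ rfl hrk r le_rfl
  refine ⟨b, hb, ?_⟩
  set q := p ^ (j - 1) * (p - 1) with hq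
  let N : Submodule ℤ M := AddSubgroup.toIntSubmodule (mM P M)
  have hN : ∀ u, u ∈ N ↔ nP P • u = 0 := fun u => Iff.rfl
  let v : Fin r × Fin q → N := fun x => ⟨bsV σ q b x, by
    rw [hN, bsV, smul_smul, mul_comm, ← smul_smul, hb, smul_zero]⟩
  have hindN : LinearIndependent ℤ v := by
    have : (N.subtype ∘ v) = bsV σ q b := rfl
    rw [← this] at hind
    exact hind.of_comp
  have hfr : Module.finrank ℤ (N ⧸ Submodule.span ℤ (Set.range v)) = 0 := by
    have h1 := Submodule.finrank_quotient_add_finrank (Submodule.span ℤ (Set.range v))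
    rw [finrank_span_eq_card hindN] at h1
    have h2 : Module.finrank ℤ N = r * q := hrk
    rw [h2] at h1
    simp only [Fintype.card_prod, Fintype.card_fin] at h1
    omega
  have htor := (Module.finrank_eq_zero_iff_isTorsion (R := ℤ)).1 hfr
  have hfin : Finite (N ⧸ Submodule.span ℤ (Set.range v)) := Module.finite_of_fg_torsion _ htor
  set L := (Submodule.span ℤ (Set.range v)).toAddSubgroup with hL
  have h5 : L.index ≠ 0 := by
    have : Finite (N ⧸ L) := hfin
    exact AddSubgroup.index_ne_zero_of_finite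
  have h6 : L ≤ (mSpn G b).addSubgroupOf (mM P M) := by
    intro x hx
    show (x : M) ∈ mSpn G b
    have hx' : x ∈ Submodule.span ℤ (Set.range v) := hx
    rw [Submodule.mem_span_range_iff_exists_fun] at hx'
    obtain ⟨c, rfl⟩ := hx'
    have h7 : ((∑ x, c x • v x : N) : M) = ∑ x, c x • bsV σ q b x := by
      rw [Submodule.coe_sum]
      rfl
    show ((∑ x, c x • v x : N) : M) ∈ Submodule.span (MonoidAlgebra ℤ G) (Set.range b)
    rw [h7, bs_sum]
    exact Submodule.sum_mem _ fun i _ => Submodule.smul_mem _ _ (Submodule.subset_span ⟨i, rfl⟩)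
  exact ne_zero_of_dvd_ne_zero h5 (AddSubgroup.index_dvd_of_le h6)

end

end Pool.Agent.AU
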