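import Pool.Agent.Lib_helper35.RS2.Bas2
import Pool.Agent.Lib_helper35.RS2.P_CE
import Pool.Agent.Lib_helper35.RS2.P_LE
import Pool.Agent.Lib_helper35.RS2.P_B4
import Pool.Agent.Lib_helper35.RS2.P_B7
import Pool.Agent.Lib_helper35.RS2.P_UQ2
import Pool.Agent.Lib_helper35.RS2.P_CH
import Pool.Agent.Lib_helper3.AU.NJ
import Pool.Agent.Lib_helper3.AU.AL

/-!
# The norm formula for a cyclic extension of degree `p ^ j`, with the class group factor
-/

namespace Pool.Agent.AU

set_option linter.unusedSectionVars false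

open Pool.Agent.RSK Pool.Agent.RS2
open NumberField NumberField.InfinitePlace NumberField.Units IsDedekindDomain Filter Topology
  Complex

section LAY

variable {F E H : Type} [Field F] [NumberField F] [Field E] [NumberField E] [Field H]
  [NumberField H] [Algebra F E] [Algebra F H] [Algebra E H] [IsScalarTower F E H]
  [IsGalois F H] [IsGalois E H] {G : Type} [CommGroup G] [Fintype G] {p j : ℕ} {P : Subgroup G}
  {ι : G ≃* (H ≃ₐ[F] H)} {ιE : P ≃* (H ≃ₐ[E] H)} {S T : Finset (HeightOneSpectrum (𝓞 F))}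
  {r : ℕ} {w : Fin r → Pl H} {fr : HeightOneSpectrum (𝓞 F) → G}

theorem nk_map (hE : Lay ι P ιE) (h : P) (W : HeightOneSpectrum (𝓞 H)) :
    HeightOneSpectrum.equivOfRingEquiv (RingOfIntegers.mapRingEquiv (ιE h).toRingEquiv) W =
      HeightOneSpectrum.equivOfRingEquiv
        (RingOfIntegers.mapRingEquiv (ι (h : G)).toRingEquiv) W := by
  have e : (ιE h).toRingEquiv = (ι (h : G)).toRingEquiv := by
    ext x
    exact hE.compat h x
  rw [e]

theorem nk_inv (hC : CycP p j P) (hE : Lay ι P ιE) :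
    (Dv (ovr E T)).map (Pool.Agent.RS2.cd_ext E H) = DvP p F H T := by
  classical
  ext D
  constructor
  · rintro ⟨D₀, hD₀, rfl⟩
    refine ⟨?_, ?_⟩
    · have := nj_le E H (ovr E T) ⟨D₀, hD₀, rfl⟩
      rwa [ovr_ovr] at this
    · intro σ hσ W
      obtain ⟨g, rfl⟩ := ι.surjective σ
      have hg : g ∈ P := by
        rw [al_mem hC]
        apply ι.injective
        rw [map_pow, hσ, map_one]
      show D₀ (HeightOneSpectrum.under (𝓞 E) _) = D₀ (HeightOneSpectrum.under (𝓞 E) _)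
      rw [← nk_map hE ⟨g, hg⟩ W, under_equiv]
  · rintro ⟨hD, hinv⟩
    have hsurj : ∀ v : HeightOneSpectrum (𝓞 E), ∃ W : HeightOneSpectrum (𝓞 H),
      W.under (𝓞 E) = v := up1_surj
    choose c hc using hsurj
    have hconst : ∀ W : HeightOneSpectrum (𝓞 H), D W = D (c (W.under (𝓞 E))) := by
      intro W
      have h1 : dn E (Sum.inr (c (W.under (𝓞 E))) : Pl H) = dn E (Sum.inr W : Pl H) := by
        show Sum.inr _ = Sum.inr _
        rw [hc]
      obtain ⟨σ, hσ⟩ := act_trans h1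
      obtain ⟨h, rfl⟩ := ιE.surjective σ
      have h2 : HeightOneSpectrum.equivOfRingEquiv
          (RingOfIntegers.mapRingEquiv (ιE h).toRingEquiv) (c (W.under (𝓞 E))) = W :=
        Sum.inr.inj hσ
      rw [nk_map hE] at h2
      have h3 : (ι (h : G)) ^ p = 1 := by
        rw [← map_pow, (al_mem hC (h : G)).1 h.2, map_one]
      have h4 := hinv _ h3 (c (W.under (𝓞 E)))
      rw [h2] at h4
      exact h4
    refine ⟨Finsupp.ofSupportFinite (fun v => D (c v)) ?_, ?_, ?_⟩
    · refine Set.Finite.subset (D.support.finite_toSet.image (fun W => W.under (𝓞 E))) ?_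
      intro v hv
      exact ⟨c v, by simpa using hv, hc v⟩
    · intro v hv
      show D (c v) = 0
      refine hD _ ?_
      rw [mem_ovr, ← tw_under (F₀ := F) (F := E) (c v), hc, ← mem_ovr]
      exact hv
    · ext W
      show D (c (W.under (𝓞 E))) = D W
      exact (hconst W).symm

theorem nk_hJ (hC : CycP p j P) (hE : Lay ι P ιE) :
    hJ p F H S T = jE E H (ovr E S) (ovr E T) := by
  rw [hJ, jE, nk_inv hC hE, ovr_ovr, ovr_ovr]

theorem norm2J (hC : CycP p j P) (hD : DataW ι S T r w fr) (hE : Lay ι P ιE) {m : ℕ}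
    (hm : Fintype.card (PS (ovr E S)) = r * p ^ (j - 1) + m + 1)
    {c : (G →* ℂˣ) → ℂ} (hc : LeadF S T r fr P c) {b : Fin r → UM ι S T} {x : MonoidAlgebra ℚ G}
    (hco : Core2 ι S T P w c b x)
    (ψ : Fin r → (UM ι S T →ₗ[MonoidAlgebra ℤ G] MonoidAlgebra ℤ G)) :
    ∃ t : ℤ, pF P (fun χ => evQ χ (x * toQ G (pmat ψ b).det)) =
      (p : ℂ) ^ m * (hJ p F H S T : ℂ) * t := by
  classical
  have hP : Fintype P := Fintype.ofFinite P
  -- representatives
  have ht : Trv P (fun a : G ⧸ P => a.out) := by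
    constructor
    · intro a a' h
      simpa using h
    · intro a
      exact ⟨a, by simp⟩
  have hcard : Fintype.card (Fin r × (G ⧸ P)) = r * p ^ (j - 1) := by
    rw [Fintype.card_prod, Fintype.card_fin]
    congr 1
    have h1 := Subgroup.card_eq_card_quotient_mul_card_subgroup P
    rw [hC.card, hC.cardP, Nat.card_eq_fintype_card] at h1
    have h2 : p ^ j = p ^ (j - 1) * p := by rw [← pow_succ, Nat.sub_add_cancel hC.pos]
    rw [h2] at h1
    exact (Nat.eq_of_mul_eq_mul_right hC.prime.pos h1).symm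
  obtain ⟨e⟩ : Nonempty (Fin (r * p ^ (j - 1)) ≃ Fin r × (G ⧸ P)) :=
    ⟨(Fintype.equivFinOfCardEq hcard).symm⟩
  obtain ⟨frE, hfrE⟩ := frE_exists hE hD.unram hD.frob
  have hDE := data_E hC hE hD (fun u hu => (hfrE u hu).1) (fun a : G ⧸ P => a.out) ht e
  have hLE := lead_E hC hD hE (fun u hu => (hfrE u hu).1) hc
  obtain ⟨bE, xE, hcoE, -, -, hψ⟩ := core_E hC hD hE hco (fun a : G ⧸ P => a.out) ht e
  obtain ⟨ψE, hψE⟩ := hψ ψ
  obtain ⟨t, ht'⟩ := norm_dvdJ hC.prime hC.cardP hDE hm hLE hcoE ψE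
  refine ⟨t, ?_⟩
  rw [← hψE, ht', nk_hJ hC hE]

end LAY

end Pool.Agent.AU
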