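import Pool.Agent.Lib_helper3.AU.LN
import Pool.Agent.Lib_helper3.AU.AL
import Pool.Agent.Lib_helper17.RS.P_TR1
import Pool.Agent.Lib_helper17.RS.P_TR2

/-!
# The component of `u` at a cyclic quotient of `G`
-/

namespace Pool.Agent.AU

set_option linter.unusedSectionVars false

open Pool.Agent.RSK Pool.Agent.RS2
open NumberField IsDedekindDomain Filter Topology Complex
open scoped TensorProduct

section

variable {F K H : Type} [Field F] [NumberField F] [Field K] [NumberField K] [Field H]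
  [NumberField H] [Algebra F K] [Algebra F H] [Algebra K H] [IsScalarTower F K H]
  [IsGalois F H] [IsGalois F K] [IsGalois K H]
  {G G' : Type} [CommGroup G] [Fintype G] [CommGroup G'] [Fintype G'] {ι : G ≃* (H ≃ₐ[F] H)}
  {ι' : G' ≃* (K ≃ₐ[F] K)} {π : G →* G'} {p j : ℕ} {P' : Subgroup G'}
  {S T : Finset (HeightOneSpectrum (𝓞 F))} {r : ℕ} {w : Fin r → Pl H}

/-- an element of `U_{S,T}` which is invariant under `ker π` comes from `K` -/
theorem tf_inv (hq : Quo ι ι' π) (m : UM ι S T)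
    (hm : ∀ n : G, π n = 1 → MonoidAlgebra.single n (1 : ℤ) • m = m) :
    ∃ u : UM ι' S T, tr2U ι ι' S T u = m := by
  have h1 : ∀ σ : H ≃ₐ[K] H, σ • m.val = m.val := by
    intro σ
    obtain ⟨g, hg⟩ := ι.surjective (σ.restrictScalars F)
    have hg1 : π g = 1 := by
      have h2 : ι' (π g) = 1 := by
        ext x
        apply (algebraMap K H).injective
        rw [hq.compat, hg]
        show σ (algebraMap K H x) = algebraMap K H x
        exact σ.commutes x
      exact ι'.injective (by rw [h2, map_one])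
    have h3 := congrArg UM.val (hm g hg1)
    rw [um_single_smul, hg] at h3
    exact h3
  obtain ⟨y, hy⟩ := fixed_unit _ h1
  have hy2 : y ∈ Un (ovr K S) (ovr K T) := by
    have h := m.val_mem
    rw [← hy, ← ovr_ovr (F := K) (H := H) S, ← ovr_ovr (F := K) (H := H) T] at h
    exact (un_map (F := K) (H := H) y).1 h
  refine ⟨UM.mk y hy2, UM.ext ?_⟩
  rw [tr2U_val, UM.val_mk, hy]

theorem tf_smul (hq : Quo ι ι' π) (a : MonoidAlgebra ℤ G) (u : UM ι' S T) :
    a • tr2U ι ι' S T u = tr2U ι ι' S T (MonoidAlgebra.mapDomainRingHom ℤ π a • u) := by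
  induction a using MonoidAlgebra.induction_on with
  | of g =>
    have h : MonoidAlgebra.of ℤ G g = MonoidAlgebra.single g 1 := rfl
    rw [h, tr2U_smul hq]
    congr 2
    simp
  | add a b ha hb => rw [map_add, add_smul, add_smul, map_add, ha, hb]
  | smul c a ha => rw [map_zsmul, smul_assoc, smul_assoc, map_zsmul, ha]

theorem tf_lift (hπ : Function.Surjective π) (a : MonoidAlgebra ℤ G') :
    ∃ b : MonoidAlgebra ℤ G, MonoidAlgebra.mapDomainRingHom ℤ π b = a := by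
  induction a using MonoidAlgebra.induction_on with
  | of g =>
    obtain ⟨g₀, hg₀⟩ := hπ g
    refine ⟨MonoidAlgebra.single g₀ 1, ?_⟩
    have h : MonoidAlgebra.of ℤ G' g = MonoidAlgebra.single g 1 := rfl
    rw [h]
    simp [hg₀]
  | add a b ha hb =>
    obtain ⟨a', rfl⟩ := ha
    obtain ⟨b', rfl⟩ := hb
    exact ⟨a' + b', map_add _ _ _⟩
  | smul c a ha =>
    obtain ⟨a', rfl⟩ := ha
    exact ⟨c • a', map_zsmul _ _ _⟩

theorem tf_evZ (χ' : G' →* ℂˣ) (a : MonoidAlgebra ℤ G) :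
    evZ (χ'.comp π) a = evZ χ' (MonoidAlgebra.mapDomainRingHom ℤ π a) := by
  induction a using MonoidAlgebra.induction_on with
  | of g =>
    have h : MonoidAlgebra.of ℤ G g = MonoidAlgebra.single g 1 := rfl
    rw [h]
    have e : ∀ (G : Type) [CommGroup G] [Fintype G] (χ : G →* ℂˣ) (g : G),
        evZ χ (MonoidAlgebra.single g 1) = ((χ g : ℂˣ) : ℂ) := by
      intro G _ _ χ g
      rw [← al_evZ]
      have : toQ G (MonoidAlgebra.single g (1 : ℤ)) = MonoidAlgebra.single g (1 : ℚ) := by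
        simp [toQ]
      rw [this, px2_evQ_single]
      simp
    rw [e, MonoidAlgebra.mapDomainRingHom_apply, MonoidAlgebra.mapDomain_single, e]
    rfl
  | add a b ha hb => rw [map_add, map_add, map_add, ha, hb]
  | smul c a ha => rw [map_zsmul, map_zsmul, map_zsmul, ha]

theorem tf_evQ (χ' : G' →* ℂˣ) (a : MonoidAlgebra ℚ G) :
    evQ (χ'.comp π) a = evQ χ' (MonoidAlgebra.mapDomainRingHom ℚ π a) := by
  induction a using tr2_ind with
  | h0 => rw [map_zero, map_zero, map_zero]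
  | h2 a b ha hb => rw [map_add, map_add, map_add, ha, hb]
  | h1 g c =>
    rw [MonoidAlgebra.mapDomainRingHom_apply, MonoidAlgebra.mapDomain_single, px2_evQ_single,
      px2_evQ_single]
    rfl

theorem tf_nP_sq (hC : CycP p j P') : nP P' * nP P' = (p : ℤ) • nP P' := by
  apply al_toQ_inj
  apply evQ_inj
  intro χ
  rw [map_mul, map_mul, map_zsmul, map_zsmul, al_evZ]
  by_cases hχ : Fth P' χ
  · rw [(al_nP_ev hC χ).1 hχ]
    simp
  · rw [(al_nP_ev hC χ).2 hχ]
    simp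

theorem tf_ev_N (χ' : G' →* ℂˣ) :
    evZ (χ'.comp π) (tr2N π ℤ) = (Nat.card π.ker : ℂ) := by
  classical
  unfold tr2N
  rw [map_sum, ← tr2_card, Finset.card_eq_sum_ones, Nat.cast_sum]
  refine Finset.sum_congr rfl fun g hg => ?_
  rw [Finset.mem_filter] at hg
  rw [tf_evZ, MonoidAlgebra.mapDomainRingHom_apply, MonoidAlgebra.mapDomain_single, hg.2,
    ← MonoidAlgebra.one_def, map_one]
  simp

theorem tf_N_inv (m : UM ι S T) (n : G) (hn : π n = 1) :
    MonoidAlgebra.single n (1 : ℤ) • (tr2N π ℤ • m) = tr2N π ℤ • m := by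
  rw [← mul_smul, mul_comm, tr2N_mul ℤ (π := π) (a := n) (b := 1) (by rw [hn, map_one]) 1,
    ← MonoidAlgebra.one_def, mul_one]

/-- modulo torsion, the component of `m` at `K` is a combination of the `b_k` -/
theorem tf_rel (hq : Quo ι ι' π) (hC : CycP p j P') (b : Fin r → UM ι' S T)
    (hfin : (mSpn G' b).relIndex (mM P' (UM ι' S T)) ≠ 0) (m : UM ι S T) :
    ∃ (β : MonoidAlgebra ℤ G) (α : Fin r → MonoidAlgebra ℤ G),
      (∀ χ' : G' →* ℂˣ, Fth P' χ' → evZ (χ'.comp π) β ≠ 0) ∧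
        β • m = ∑ k, α k • tr2U ι ι' S T (b k) := by
  obtain ⟨u, hu⟩ := tf_inv hq (tr2N π ℤ • m) (fun n hn => tf_N_inv m n hn)
  set D := (mSpn G' b).relIndex (mM P' (UM ι' S T)) with hD
  have h1 : ((p : ℤ) • (1 : MonoidAlgebra ℤ G') - nP P') • u ∈ mM P' (UM ι' S T) := by
    show nP P' • _ = 0
    rw [← mul_smul, mul_sub, tf_nP_sq hC, mul_smul_comm, mul_one, sub_self, zero_smul]
  have h2 : (D : ℤ) • (((p : ℤ) • (1 : MonoidAlgebra ℤ G') - nP P') • u) ∈ mSpn G' b := by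
    have h3 := AddSubgroup.nsmul_relIndex_mem (H := mSpn G' b) (K := mM P' (UM ι' S T)) h1
    rw [natCast_zsmul]
    exact h3
  have h3 : (D : ℤ) • (((p : ℤ) • (1 : MonoidAlgebra ℤ G') - nP P') • u) ∈
      Submodule.span (MonoidAlgebra ℤ G') (Set.range b) := h2
  rw [Submodule.mem_span_range_iff_exists_fun] at h3
  obtain ⟨α', hα'⟩ := h3
  choose α hα using fun k => tf_lift hq.surj (α' k)
  obtain ⟨β₀, hβ₀⟩ := tf_lift hq.surj
    ((D : ℤ) • ((p : ℤ) • (1 : MonoidAlgebra ℤ G') - nP P'))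
  refine ⟨β₀ * tr2N π ℤ, α, ?_, ?_⟩
  · intro χ' hχ'
    rw [map_mul, tf_ev_N, tf_evZ, hβ₀, map_zsmul, map_sub, map_zsmul, map_one,
      (al_nP_ev hC χ').1 hχ', sub_zero]
    have h4 : (D : ℂ) ≠ 0 := Nat.cast_ne_zero.2 hfin
    have h5 : (p : ℂ) ≠ 0 := Nat.cast_ne_zero.2 hC.prime.pos.ne'
    have h6 : (Nat.card π.ker : ℂ) ≠ 0 := Nat.cast_ne_zero.2 Nat.card_pos.ne'
    simp only [zsmul_eq_mul, Int.cast_natCast, mul_one]
    exact mul_ne_zero (mul_ne_zero h4 h5) h6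
  · rw [mul_smul, ← hu, tf_smul hq, hβ₀, smul_assoc, ← hα', map_sum]
    refine Finset.sum_congr rfl fun k _ => ?_
    rw [tf_smul hq, hα]

/-- the images of `b_k` under `ψ_i`, read in `G'` -/
theorem tf_pmat (hq : Quo ι ι' π)
    (ψ : Fin r → (UM ι S T →ₗ[MonoidAlgebra ℤ G] MonoidAlgebra ℤ G)) (b : Fin r → UM ι' S T) :
    ∃ ψ' : Fin r → (UM ι' S T →ₗ[MonoidAlgebra ℤ G'] MonoidAlgebra ℤ G'),
      ∀ χ' : G' →* ℂˣ, evZ (χ'.comp π) (pmat ψ (fun k => tr2U ι ι' S T (b k))).det =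
        (Nat.card π.ker : ℂ) ^ r * evZ χ' (pmat ψ' b).det := by
  obtain ⟨s, hs⟩ := hq.surj.hasRightInverse
  refine ⟨fun i => tr2L hq hs (ψ i), fun χ' => ?_⟩
  have hds := Matrix.det_smul ((evZ χ').mapMatrix (pmat (fun i => tr2L hq hs (ψ i)) b))
    (Nat.card π.ker : ℂ)
  rw [Fintype.card_fin] at hds
  rw [RingHom.map_det, RingHom.map_det, ← hds]
  congr 1
  ext i k
  show evZ (χ'.comp π) (ψ i (tr2U ι ι' S T (b k))) =
    (Nat.card π.ker : ℂ) • evZ χ' (tr2L hq hs (ψ i) (b k))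
  rw [tf_evZ, tr2A_key hq hs, map_zsmul]
  have : tr2L hq hs (ψ i) (b k) = tr2A s (ψ i) (b k) := rfl
  rw [this, zsmul_eq_mul, smul_eq_mul]
  push_cast
  rfl

theorem tf_wmat (hq : Quo ι ι' π) (hw : ∀ i, ∀ σ : H ≃ₐ[F] H, act σ (w i) = w i → σ = 1)
    (b : Fin r → UM ι' S T) (χ' : G' →* ℂˣ) :
    evR (χ'.comp π) (wmat ι S T w (fun k => tr2U ι ι' S T (b k))).det =
      (Nat.card π.ker : ℂ) ^ r * evR χ' (wmat ι' S T (fun i => dn K (w i)) b).det := by
  have hds := Matrix.det_smul ((evR χ').mapMatrix (wmat ι' S T (fun i => dn K (w i)) b))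
    (Nat.card π.ker : ℂ)
  rw [Fintype.card_fin] at hds
  rw [AlgHom.map_det, AlgHom.map_det, ← hds]
  congr 1
  ext i k
  show evR (χ'.comp π) (wl ι S T (w i) (tr2U ι ι' S T (b k))) =
    (Nat.card π.ker : ℂ) • evR χ' (wl ι' S T (dn K (w i)) (b k))
  rw [wl_up hq (hw i) _ (b k) (tr2U_val _)]
  rfl

end

end Pool.Agent.AU
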