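import Pool.Agent.Lib_helper35.RS2.P_NF
import Pool.Agent.Lib_helper3.AU.NK
import Pool.Agent.Lib_helper3.AU.BS
import Pool.Agent.Lib_helper3.AU.TRF
import Pool.Agent.Lib_helper35.RS2.K_UR

/-!
# The norm of the component of `u` at a cyclic extension `K/F`
-/

namespace Pool.Agent.AU

set_option linter.unusedSectionVars false

open Pool.Agent.RSK Pool.Agent.RS2
open NumberField IsDedekindDomain Filter Topology Complex
open scoped TensorProduct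

section

variable {F K H E : Type} [Field F] [NumberField F] [Field K] [NumberField K] [Field H]
  [NumberField H] [Field E] [NumberField E] [Algebra F K] [Algebra F H] [Algebra K H]
  [IsScalarTower F K H] [IsGalois F H] [IsGalois F K] [IsGalois K H] [Algebra F E] [Algebra E K]
  [IsScalarTower F E K] [IsGalois E K]
  {G G' : Type} [CommGroup G] [Fintype G] [CommGroup G'] [Fintype G'] {ι : G ≃* (H ≃ₐ[F] H)}
  {ι' : G' ≃* (K ≃ₐ[F] K)} {π : G →* G'} {p j : ℕ} {P' : Subgroup G'}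
  {ιE : P' ≃* (K ≃ₐ[E] K)}
  {S T : Finset (HeightOneSpectrum (𝓞 F))} {r : ℕ} {w : Fin r → Pl H}
  {fr' : HeightOneSpectrum (𝓞 F) → G'}

theorem cp_norm (hq : Quo ι ι' π) (hC : CycP p j P')
    (hw : ∀ i, ∀ σ : H ≃ₐ[F] H, act σ (w i) = w i → σ = 1)
    (hD : DataW ι' S T r (fun i => dn K (w i)) fr') (hE : Lay ι' P' ιE) {m : ℕ}
    (hm : Fintype.card (PS (ovr E S)) = r * p ^ (j - 1) + m + 1)
    {c : (G →* ℂˣ) → ℂ} (hc : LeadF S T r fr' P' (fun χ' => c (χ'.comp π)))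
    (u : (⋀[MonoidAlgebra ℤ G]^r (UM ι S T)) ⊗[ℤ] ℚ)
    (hu : ∀ χ : G →* ℂˣ, evR χ (extQ (detMap (fun i => wl ι S T (w i))).toAddMonoidHom u) = c χ⁻¹)
    (ψ : Fin r → (UM ι S T →ₗ[MonoidAlgebra ℤ G] MonoidAlgebra ℤ G)) :
    ∃ t : ℤ, pF P' (fun χ' => evQ (χ'.comp π) (psiQ ψ u)) =
      (p : ℂ) ^ m * (hJ p F K S T : ℂ) * t := by
  classical
  have := Pool.Agent.RS2.um_finite hD
  have := Pool.Agent.RS2.um_tf hD
  have hdiv : ∀ y : MonoidAlgebra ℚ G', (∀ χ : G' →* ℂˣ, Fth P' χ → evQ χ y ≠ 0) →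
      ∃ z : MonoidAlgebra ℚ G', ∀ χ : G' →* ℂˣ, Fth P' χ → evQ χ z * evQ χ y = 1 := by
    intro y hy
    obtain ⟨z, -, hz⟩ := div_exists_nP (P := P') (1 : MonoidAlgebra ℚ G') y hy
    exact ⟨z, fun χ hχ => by rw [hz χ hχ, map_one]⟩
  obtain ⟨b, hb, hfin⟩ := bs_main hC hdiv (um_rank2 hC hD hE)
  obtain ⟨ψ', hψ'⟩ := tf_pmat hq ψ b
  have hz : ∀ χ' : G' →* ℂˣ, Fth P' χ' → ∃ z : ℂ,
      evQ (χ'.comp π) (psiQ ψ u) = z * evZ χ' (pmat ψ' b).det ∧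
      c (χ'.comp π)⁻¹ = z * evR χ' (wmat ι' S T (fun i => dn K (w i)) b).det := by
    intro χ' hχ'
    obtain ⟨z, h1, h2⟩ := ln_main w (χ'.comp π) (fun k => tr2U ι ι' S T (b k))
      (fun m => by
        obtain ⟨β, α, h3, h4⟩ := tf_rel hq hC b hfin m
        exact ⟨β, α, h3 χ' hχ', h4⟩) u
    refine ⟨z * (Nat.card π.ker : ℂ) ^ r, ?_, ?_⟩
    · rw [h1 ψ, hψ' χ', mul_assoc]
    · rw [← hu, h2, tf_wmat hq hw b χ', mul_assoc]
  by_cases h0 : ∃ χ₀ : G' →* ℂˣ, Fth P' χ₀ ∧ evZ χ₀ (pmat ψ' b).det = 0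
  · obtain ⟨χ₀, hχ₀, h0⟩ := h0
    refine ⟨0, ?_⟩
    rw [Int.cast_zero, mul_zero]
    have hfin' : Finite (G' →* ℂˣ) := px2_finite
    let _ : Fintype {χ : G' →* ℂˣ // Fth P' χ} := Fintype.ofFinite _
    rw [pF, finprod_eq_prod_of_fintype]
    refine Finset.prod_eq_zero (Finset.mem_univ ⟨χ₀, hχ₀⟩) ?_
    obtain ⟨z, h1, -⟩ := hz χ₀ hχ₀
    rw [h1, h0, mul_zero]
  · push Not at h0
    obtain ⟨x, hx0, hx⟩ := div_exists_nP (P := P')
      (MonoidAlgebra.mapDomainRingHom ℚ π (psiQ ψ u)) (toQ G' (pmat ψ' b).det) h0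
    have hxe : ∀ χ' : G' →* ℂˣ, Fth P' χ' → evQ χ' x * evZ χ' (pmat ψ' b).det =
        evQ (χ'.comp π) (psiQ ψ u) := by
      intro χ' hχ'
      rw [tf_evQ, ← hx χ' hχ', al_evZ]
    have hco : Core2 ι' S T P' (fun i => dn K (w i)) (fun χ' => c (χ'.comp π)) b x := by
      refine ⟨hb, hx0, ?_⟩
      intro χ' hχ'
      obtain ⟨z, h1, h2⟩ := hz χ' hχ'
      have h3 : evQ χ' x = z := by
        have h4 := hxe χ' hχ'
        rw [h1] at h4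
        exact mul_right_cancel₀ (h0 χ' hχ') h4
      rw [h3, ← h2]
      rfl
    obtain ⟨t, ht⟩ := norm2J hC hD hE hm hc hco ψ'
    refine ⟨t, ?_⟩
    rw [← ht]
    unfold pF
    refine finprod_congr fun χ' => ?_
    show evQ (χ'.1.comp π) (psiQ ψ u) = evQ χ'.1 (x * toQ G' (pmat ψ' b).det)
    rw [map_mul, al_evZ, hxe χ'.1 χ'.2]

end

end Pool.Agent.AU
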