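import Pool.Agent.Lib_helper3.AU.Defs
import Pool.Agent.Lib_helper17.RS.Stmt

/-!
# Integrality of rational Stark elements: the statement
-/

namespace Pool.Agent.AU

set_option linter.unusedSectionVars false

open Pool.Agent.RSK
open NumberField IsDedekindDomain Filter Topology Complex
open scoped TensorProduct

section M

variable {R M A B : Type} [CommRing R] [AddCommGroup M] [Module R M] [CommRing A] [Algebra R A]
  [Module ℚ A] [CommRing B] [Module ℚ B] {r : ℕ}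

/-- In the application `R = ℤ[G]` and `A = ℝ[G]`. The element `u ∈ ℚ ⊗ ⋀^r_R M` is killed by `I`,
and `l_1 ∧ … ∧ l_r` maps `u` to `Θ`. -/
structure IsStk (l : Fin r → (M →ₗ[R] A)) (I : Set R) (Θ : A) (u : (⋀[R]^r M) ⊗[ℤ] ℚ) :
    Prop where
  /-- `I` annihilates `u` -/
  er : ∀ a ∈ I, a • u = 0
  /-- `(l_1 ∧ … ∧ l_r)(u) = Θ` -/
  value : extQ (detMap l).toAddMonoidHom u = Θ

/-- `q ^ κ u` lies in Rubin's lattice locally at the prime `q`: in the application `R = ℤ[G]`,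
`B = ℚ[G]` and `j : R → B` is the inclusion, and all maps `ψ_1 ∧ … ∧ ψ_r` with
`ψ_i ∈ Hom_R(M, R)` map `q ^ κ u` to `ℤ_(q)[G]`. -/
def LocInt (j : R →+* B) (q κ : ℕ) (u : (⋀[R]^r M) ⊗[ℤ] ℚ) : Prop :=
  ∀ ψ : Fin r → (M →ₗ[R] R), ∃ (m : ℕ) (a : R), ¬ q ∣ m ∧
    (m * q ^ κ) • extQ (j.toAddMonoidHom.comp (detMap ψ).toAddMonoidHom) u = j a

/-- All elements `u ∈ ℚ ⊗ ⋀^r_R M` with `I u = 0` and `(l_1 ∧ … ∧ l_r)(u) = Θ` are integral. -/
def AllInt (j : R →+* B) (l : Fin r → (M →ₗ[R] A)) (I : Set R) (Θ : A) (q κ : ℕ) : Prop :=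
  ∀ u, IsStk l I Θ u → LocInt j q κ u

end M

section

variable {F H : Type} [Field F] [NumberField F] [Field H] [NumberField H] [Algebra F H]
variable {G : Type} [CommGroup G] [Fintype G]

/-- For every rational Stark element `u ∈ ℚ ⊗ ⋀^r U_{S,T}`, the element `q ^ κ u` lies in Rubin's
lattice locally at the prime `q`. Here `c χ = lim_{s → 0} s^{-r} L_{S,T}(χ, s)`, the element
`Θ ∈ ℝ[G]` is given by `χ(Θ) = c(χ⁻¹)`, the `ℤ[G]`-module `M` is isomorphic to `U_{S,T}`, and `u` is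
a rational Stark element if `(w_1^* ∧ … ∧ w_r^*)(λ(u)) = Θ` and `u = e_r u`, i.e. `u` is killed by
all `a ∈ ℤ[G]` with `χ(a) = 0` for all `χ` with `Cont ι S w χ`. -/
def StarkInt (q κ : ℕ) (ι : G ≃* (H ≃ₐ[F] H)) (S T : Finset (HeightOneSpectrum (𝓞 F))) {r : ℕ}
    (w : Fin r → Pl H) (fr : HeightOneSpectrum (𝓞 F) → G) : Prop :=
  ∀ (c : (G →* ℂˣ) → ℂ) (Θ : MonoidAlgebra ℝ G), Lead S T r fr c → (∀ χ, evR χ Θ = c χ⁻¹) →
    ∀ (M : Type) (_ : AddCommGroup M) (_ : Module (MonoidAlgebra ℤ G) M) (e : M → Hˣ)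
      (l : Fin r → (M →ₗ[MonoidAlgebra ℤ G] MonoidAlgebra ℝ G)), IsMod ι S T w e l →
        AllInt (toQ G) l {a | ∀ χ, Cont ι S w χ → evZ χ a = 0} Θ q κ

/-- no place of `S` other than the `v_i` splits completely in `H^N` (i.e. has a decomposition group
contained in `N`) -/
def NoX (ι : G ≃* (H ≃ₐ[F] H)) (S : Finset (HeightOneSpectrum (𝓞 F))) {r : ℕ} (w : Fin r → Pl H)
    (N : Subgroup G) : Prop :=
  ∀ W : Pl H, InS S (dn F W) → (∀ g : G, act (ι g) W = W → g ∈ N) → ∃ l, dn F W = dn F (w l)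

/-- the condition under which `p ^ κ u` is integral at `p` -/
def CondP (p κ : ℕ) (ι : G ≃* (H ≃ₐ[F] H)) (S T : Finset (HeightOneSpectrum (𝓞 F))) {r : ℕ}
    (w : Fin r → Pl H) : Prop :=
  (r + 2 ≤ Fintype.card (InfinitePlace F) + S.card ∨
    Nat.card G ∣ p ^ κ * hA S T) ∧
  ∀ (N N' : Subgroup G) (i : ℕ), IsCyclic (G ⧸ N) → N ≤ N' → N.index = p * N'.index →
    Nat.card N = p ^ i → NoX ι S w N → ∃ a : ℕ, p ^ a ∣ hJ p F (Kf ι N) S T ∧
      N'.index * (r + 1 + i * (p - 1)) <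
        Fintype.card (PS (ovr (Kf ι N') S)) + a + N'.index * (κ * (p - 1))

end

end Pool.Agent.AU
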