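import Pool.Agent.Lib_helper3.AU.TRF

/-!
# The characters with `L^{(r)}_{S,T}(χ, 0) = 0`
-/

namespace Pool.Agent.AU

set_option linter.unusedSectionVars false

open Pool.Agent.RSK Pool.Agent.RS2
open NumberField IsDedekindDomain Filter Topology Complex
open scoped TensorProduct

section

variable {F H : Type} [Field F] [NumberField F] [Field H] [NumberField H] [Algebra F H]
variable {G : Type} [CommGroup G] [Fintype G] {ι : G ≃* (H ≃ₐ[F] H)}
  {S T : Finset (HeightOneSpectrum (𝓞 F))} {r : ℕ} {w : Fin r → Pl H}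

theorem er_psiQ (ψ : Fin r → (UM ι S T →ₗ[MonoidAlgebra ℤ G] MonoidAlgebra ℤ G))
    (a : MonoidAlgebra ℤ G) (u : (⋀[MonoidAlgebra ℤ G]^r (UM ι S T)) ⊗[ℤ] ℚ) :
    psiQ ψ (a • u) = toQ G a * psiQ ψ u := by
  induction u using TensorProduct.induction_on with
  | zero =>
    rw [smul_zero]
    unfold psiQ
    rw [map_zero, mul_zero]
  | tmul n q =>
    rw [TensorProduct.smul_tmul']
    unfold psiQ
    rw [extQ_tmul, extQ_tmul]
    show q • toQ G (detMap ψ (a • n)) = toQ G a * (q • toQ G (detMap ψ n))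
    rw [map_smul, smul_eq_mul, map_mul, mul_smul_comm]
  | add x y hx hy =>
    rw [smul_add]
    unfold psiQ at hx hy ⊢
    rw [map_add, map_add, hx, hy, mul_add]

theorem er_sing (χ : G →* ℂˣ) (g : G) : evZ χ (MonoidAlgebra.single g 1) = ((χ g : ℂˣ) : ℂ) := by
  rw [← al_evZ]
  have : toQ G (MonoidAlgebra.single g (1 : ℤ)) = MonoidAlgebra.single g (1 : ℚ) := by
    simp [toQ]
  rw [this, px2_evQ_single]
  simp

theorem er_ev {c : (G →* ℂˣ) → ℂ} {u : (⋀[MonoidAlgebra ℤ G]^r (UM ι S T)) ⊗[ℤ] ℚ}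
    (hu : IsStark ι S T w c u) {χ : G →* ℂˣ} (hχ : ¬ Cont ι S w χ)
    (ψ : Fin r → (UM ι S T →ₗ[MonoidAlgebra ℤ G] MonoidAlgebra ℤ G)) :
    evQ χ (psiQ ψ u) = 0 := by
  classical
  have key : ∀ a : MonoidAlgebra ℤ G, (∀ χ', Cont ι S w χ' → evZ χ' a = 0) → evZ χ a ≠ 0 →
      evQ χ (psiQ ψ u) = 0 := by
    intro a ha hne
    have h1 : evQ χ (psiQ ψ (a • u)) =
        evQ χ (psiQ ψ (0 : (⋀[MonoidAlgebra ℤ G]^r (UM ι S T)) ⊗[ℤ] ℚ)) := by
      rw [hu.er a ha]
    rw [er_psiQ, map_mul, al_evZ] at h1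
    have h2 : evQ χ (psiQ ψ (0 : (⋀[MonoidAlgebra ℤ G]^r (UM ι S T)) ⊗[ℤ] ℚ)) = 0 := by
      unfold psiQ
      rw [map_zero, map_zero]
    rw [h2] at h1
    exact (mul_eq_zero.1 h1).resolve_left hne
  by_cases h1 : χ = 1
  · subst h1
    have hcard : Fintype.card (InfinitePlace F) + S.card ≠ r + 1 := by
      intro h
      exact hχ ⟨fun _ => h, fun h => absurd rfl h⟩
    refine key (nrm G) (fun χ' hχ' => ?_) ?_
    · rw [← al_evZ]
      exact px2_evQ_nrm fun h => hcard (hχ'.1 h)
    · rw [← al_evZ, px2_evQ_nrm_one]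
      exact Nat.cast_ne_zero.2 Nat.card_pos.ne'
  · obtain ⟨W, hW1, hW2, hW3⟩ : ∃ W : Pl H, InS S (dn F W) ∧
        (∀ g : G, act (ι g) W = W → χ g = 1) ∧ ∀ i, dn F W ≠ dn F (w i) := by
      by_contra hcon
      push Not at hcon
      exact hχ ⟨fun h => absurd h h1, fun _ => hcon⟩
    obtain ⟨g₀, hg₀⟩ : ∃ g₀ : G, χ g₀ ≠ 1 := by
      by_contra hcon
      push Not at hcon
      exact h1 (MonoidHom.ext hcon)
    set D : Finset G := Finset.univ.filter (fun g : G => act (ι g) W = W) with hD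
    have hD1 : (1 : G) ∈ D := by
      rw [hD, Finset.mem_filter, map_one, act_one]
      exact ⟨Finset.mem_univ _, rfl⟩
    have hDm : ∀ d ∈ D, ∀ g : G, d * g ∈ D ↔ g ∈ D := by
      intro d hd g
      simp only [hD, Finset.mem_filter, Finset.mem_univ, true_and] at hd ⊢
      rw [map_mul, act_mul]
      constructor
      · intro h
        have h2 := congrArg (act (ι d)⁻¹) h
        rw [← act_mul, inv_mul_cancel, act_one] at h2
        rw [h2]
        conv_lhs => rw [← hd]
        rw [← act_mul, inv_mul_cancel, act_one]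
      · intro h
        rw [h, hd]
    refine key ((∑ g ∈ D, MonoidAlgebra.single g 1) * (1 - MonoidAlgebra.single g₀ 1))
      (fun χ' hχ' => ?_) ?_
    · rw [map_mul, map_sub, map_one, er_sing, map_sum]
      by_cases h2 : χ' = 1
      · rw [h2]
        simp
      · obtain ⟨d, hd, hd1⟩ : ∃ d ∈ D, χ' d ≠ 1 := by
          by_contra hcon
          push Not at hcon
          obtain ⟨i, hi⟩ := hχ'.2 h2 W hW1 (fun g hg => hcon g (by
            rw [hD, Finset.mem_filter]
            exact ⟨Finset.mem_univ _, hg⟩))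
          exact hW3 i hi
        have h3 : (((χ' d : ℂˣ) : ℂ)) * ∑ g ∈ D, evZ χ' (MonoidAlgebra.single g 1) =
            ∑ g ∈ D, evZ χ' (MonoidAlgebra.single g 1) := by
          rw [Finset.mul_sum]
          refine Finset.sum_bij (fun g _ => d * g) (fun g hg => (hDm d hd g).2 hg)
            (fun g _ g' _ h => mul_left_cancel h) ?_ ?_
          · intro g hg
            refine ⟨d⁻¹ * g, ?_, by simp⟩
            have := (hDm d hd (d⁻¹ * g)).1
            rw [mul_inv_cancel_left] at this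
            exact this hg
          · intro g _
            rw [er_sing, er_sing, map_mul, Units.val_mul]
        have h4 : ((((χ' d : ℂˣ) : ℂ)) - 1) * ∑ g ∈ D, evZ χ' (MonoidAlgebra.single g 1) = 0 := by
          rw [sub_mul, h3, one_mul, sub_self]
        have h5 : (((χ' d : ℂˣ) : ℂ)) - 1 ≠ 0 := by
          intro h
          apply hd1
          apply Units.ext
          rw [Units.val_one]
          exact sub_eq_zero.1 h
        rw [(mul_eq_zero.1 h4).resolve_left h5, zero_mul]
    · rw [map_mul, map_sub, map_one, er_sing, map_sum]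
      have h2 : ∑ g ∈ D, evZ χ (MonoidAlgebra.single g 1) = (D.card : ℂ) := by
        rw [Finset.card_eq_sum_ones, Nat.cast_sum]
        refine Finset.sum_congr rfl fun g hg => ?_
        rw [er_sing]
        rw [hD, Finset.mem_filter] at hg
        rw [hW2 g hg.2]
        simp
      rw [h2]
      refine mul_ne_zero (Nat.cast_ne_zero.2 (Finset.card_pos.2 ⟨1, hD1⟩).ne') ?_
      intro h
      apply hg₀
      apply Units.ext
      rw [Units.val_one]
      exact (sub_eq_zero.1 h).symm

end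

end Pool.Agent.AU
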