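import Pool.Agent.Lib_helper3.AU.GL
import Pool.Agent.Lib_helper35.RS2.P_GP

/-!
# Lifting the component
-/

namespace Pool.Agent.AU

set_option linter.unusedSectionVars false

open Pool.Agent.RSK Pool.Agent.RS2
open NumberField IsDedekindDomain Filter Topology Complex
open scoped TensorProduct

section

variable {G G' : Type} [CommGroup G] [Fintype G] [CommGroup G'] [Fintype G'] {π : G →* G'}
  {p j : ℕ} {P' : Subgroup G'}

theorem gf_fac (hπ : Function.Surjective π) (χ : G →* ℂˣ) (h : π.ker ≤ χ.ker) :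
    ∃ χ' : G' →* ℂˣ, χ = χ'.comp π := by
  refine ⟨(QuotientGroup.lift π.ker χ h).comp
    (QuotientGroup.quotientKerEquivOfSurjective π hπ).symm.toMonoidHom, ?_⟩
  ext g
  have : (QuotientGroup.quotientKerEquivOfSurjective π hπ).symm (π g) =
      (QuotientGroup.mk g : G ⧸ π.ker) := by
    rw [MulEquiv.symm_apply_eq]
    rfl
  show _ = ((QuotientGroup.lift π.ker χ h
    ((QuotientGroup.quotientKerEquivOfSurjective π hπ).symm (π g)) : ℂˣ) : ℂ)
  rw [this]
  rfl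

theorem gf_le (χ' : G' →* ℂˣ) : π.ker ≤ (χ'.comp π).ker := by
  intro g hg
  rw [MonoidHom.mem_ker] at hg ⊢
  show χ' (π g) = 1
  rw [hg, map_one]

/-- the characters which are nontrivial on `P'` are those with kernel `ker π` -/
theorem gf_ker (hπ : Function.Surjective π) (hC : CycP p j P') (χ' : G' →* ℂˣ) :
    (χ'.comp π).ker = π.ker ↔ Fth P' χ' := by
  constructor
  · intro h
    have h1 : 1 < Nat.card P' := by
      rw [hC.cardP]
      exact hC.prime.one_lt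
    have := Finite.one_lt_card_iff_nontrivial.1 h1
    obtain ⟨g, hg⟩ := exists_ne (1 : P')
    refine ⟨g, g.2, ?_⟩
    intro h2
    obtain ⟨g₀, hg₀⟩ := hπ g
    have h3 : g₀ ∈ (χ'.comp π).ker := by
      rw [MonoidHom.mem_ker]
      show χ' (π g₀) = 1
      rw [hg₀, h2]
    rw [h, MonoidHom.mem_ker, hg₀] at h3
    exact hg (Subtype.ext h3)
  · intro h
    refine le_antisymm ?_ (gf_le χ')
    intro g hg
    rw [MonoidHom.mem_ker] at hg ⊢
    by_contra h1
    exact fth_ne hC h h1 hg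

theorem gf_lift (hπ : Function.Surjective π) (hC : CycP p j P') (y : MonoidAlgebra ℚ G)
    (yN : MonoidAlgebra ℚ G') (hy0 : toQ G' (nP P') * yN = 0)
    (hyN : ∀ χ' : G' →* ℂˣ, Fth P' χ' → evQ χ' yN = evQ (χ'.comp π) y) (n : ℕ)
    (a' : MonoidAlgebra ℤ G') (ha : MonoidAlgebra.single 1 (n : ℚ) * yN =
      toQ G' (MonoidAlgebra.single 1 (Nat.card π.ker : ℤ) * a')) :
    ∃ a : MonoidAlgebra ℤ G, (∀ χ : G →* ℂˣ, χ.ker = π.ker → (n : ℂ) * evQ χ y = evZ χ a) ∧
      ∀ χ : G →* ℂˣ, χ.ker ≠ π.ker → evZ χ a = 0 := by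
  classical
  obtain ⟨s, hs⟩ : ∃ s : G' → G, ∀ g, π (s g) = g :=
    ⟨Function.surjInv hπ, Function.surjInv_eq hπ⟩
  have hsingle : toQ G' (MonoidAlgebra.single 1 (Nat.card π.ker : ℤ)) =
      MonoidAlgebra.single 1 (Nat.card π.ker : ℚ) := by
    simp [toQ]
  have key : ∀ χ' : G' →* ℂˣ, evZ (χ'.comp π) (tr2P π s ℤ a') = (n : ℂ) * evQ χ' yN := by
    intro χ'
    rw [← al_evZ, ← tr2_toQ, tr2_ev hs]
    have h1 := congrArg (evQ χ') ha
    rw [map_mul, map_mul, map_mul, hsingle, px2_evQ_single, px2_evQ_single, map_one] at h1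
    push_cast at h1
    rw [mul_one, mul_one] at h1
    exact h1.symm
  refine ⟨tr2P π s ℤ a', ?_, ?_⟩
  · intro χ hχ
    obtain ⟨χ', rfl⟩ := gf_fac hπ χ hχ.ge
    rw [key, hyN χ' ((gf_ker hπ hC χ').1 hχ)]
  · intro χ hχ
    by_cases hf : ∃ χ' : G' →* ℂˣ, χ = χ'.comp π
    · obtain ⟨χ', rfl⟩ := hf
      rw [key, (nP_zero_iff yN).1 hy0 χ' (fun h => hχ ((gf_ker hπ hC χ').2 h)), mul_zero]
    · rw [← al_evZ, ← tr2_toQ]
      exact tr2_ev_zero hπ χ hf _

end

end Pool.Agent.AU
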