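import Pool.Agent.Lib_helper35.RS2.P_LY
import Pool.Agent.Lib_helper35.RS2.P_QK
import Pool.Agent.Lib_helper35.RS2.P_CA
import Pool.Agent.Lib_helper35.RS2.P_CB
import Pool.Agent.Lib_helper35.RS2.P_CC
import Pool.Agent.Lib_helper3.AU.CP
import Pool.Agent.Lib_helper3.AU.GF
import Pool.Agent.Lib_helper3.AU.ER
import Pool.Agent.Lib_helper17.RS.P_QU2
import Pool.Agent.Lib_helper17.RS.P_IF
import Pool.Agent.Lib_helper3.AU.DefsF

/-!
# The component at a subgroup `N` with cyclic quotient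
-/

namespace Pool.Agent.AU

set_option linter.unusedSectionVars false

open Pool.Agent.RSK Pool.Agent.RS2
open NumberField IsDedekindDomain Filter Topology Complex
open scoped TensorProduct

section

variable {F K H : Type} [Field F] [NumberField F] [Field K] [NumberField K] [Field H]
  [NumberField H] [Algebra F K] [Algebra F H] [Algebra K H] [IsScalarTower F K H]
  [IsGalois F H] [IsGalois F K] [IsGalois K H]
  {G G' : Type} [CommGroup G] [Fintype G] [CommGroup G'] [Fintype G'] {ι : G ≃* (H ≃ₐ[F] H)}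
  {ι' : G' ≃* (K ≃ₐ[F] K)} {π : G →* G'} {p j : ℕ} {P' : Subgroup G'}
  {S T : Finset (HeightOneSpectrum (𝓞 F))} {r : ℕ} {w : Fin r → Pl H}
  {fr : HeightOneSpectrum (𝓞 F) → G}

theorem cn_data (hq : Quo ι ι' π) (hD : Data ι S T r w fr)
    (hall : ∀ W : Pl H, InS S (dn F W) → (∀ g : G, act (ι g) W = W → π g = 1) →
      ∃ i, dn F W = dn F (w i)) :
    Data ι' S T r (fun i => dn K (w i)) (fun v => π (fr v)) where
  disj := hD.disj
  unram := by
    intro W hW
    exact qu2_unram (H := H) fun W' hW' => hD.unram W' (by rw [hW']; exact hW)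
  tors := hD.tors
  mem := by
    intro i
    rw [dn_dn]
    exact hD.mem i
  split := by
    intro i
    exact qu2_split hq (hD.split i)
  inj := by
    intro i j h
    rw [dn_dn, dn_dn] at h
    exact hD.inj i j h
  all := by
    intro W h1 h2
    obtain ⟨W', rfl⟩ := dn_surj (H := H) W
    rw [dn_dn] at h1
    obtain ⟨i, hi⟩ := hall W' h1 (fun g hg => by
      have h3 := h2 (ι' (π g)) (by rw [← quo_act hq, hg])
      exact ι'.injective (by rw [h3, map_one]))
    exact ⟨i, by rw [dn_dn, dn_dn, hi]⟩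
  card := hD.card
  frob := by
    intro v hv
    exact quo_fr hq (hD.frob v hv)

end

section

variable {F H : Type} [Field F] [NumberField F] [Field H] [NumberField H] [Algebra F H]
  [IsGalois F H] {G : Type} [CommGroup G] [Fintype G] {p : ℕ} {ι : G ≃* (H ≃ₐ[F] H)}
  {S T : Finset (HeightOneSpectrum (𝓞 F))} {r : ℕ} {w : Fin r → Pl H}
  {fr : HeightOneSpectrum (𝓞 F) → G}

theorem cn_cycp {G' : Type} [CommGroup G'] [Finite G'] {p j : ℕ} (hp : p.Prime) (hj : 0 < j)
    (hc : IsCyclic G') (hcard : Nat.card G' = p ^ j) : ∃ P' : Subgroup G', CycP p j P' := by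
  have := Fact.mk hp
  obtain ⟨g, hg⟩ := exists_prime_orderOf_dvd_card' (G := G') p (by
    rw [hcard]
    exact dvd_pow_self p hj.ne')
  exact ⟨Subgroup.zpowers g, hp, hj, hc, hcard, by rw [Nat.card_zpowers, hg]⟩

/-- the subgroup `N'` -/
theorem cn_index {j : ℕ} {N : Subgroup G} {P' : Subgroup (G ⧸ N)} (hC : CycP p j P') :
    N ≤ P'.comap (QuotientGroup.mk' N) ∧ N.index = p ^ j ∧
      (P'.comap (QuotientGroup.mk' N)).index = p ^ (j - 1) := by
  have hidx' : (P'.comap (QuotientGroup.mk' N)).index = P'.index :=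
    Subgroup.index_comap_of_surjective _ (QuotientGroup.mk'_surjective N)
  refine ⟨?_, hC.card, ?_⟩
  · intro x hx
    rw [Subgroup.mem_comap]
    have : (QuotientGroup.mk' N x) = 1 := by
      rw [← MonoidHom.mem_ker, QuotientGroup.ker_mk']
      exact hx
    rw [this]
    exact one_mem _
  · have hP' : p * P'.index = p ^ j := by
      have := P'.card_mul_index
      rw [hC.cardP, hC.card] at this
      exact this
    rw [hidx']
    obtain ⟨l, hl⟩ : ∃ l, j = l + 1 := ⟨j - 1, by have := hC.pos; omega⟩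
    rw [hl, pow_succ, mul_comm (p ^ l)] at hP'
    rw [hl, Nat.add_sub_cancel]
    exact Nat.eq_of_mul_eq_mul_left hC.prime.pos hP'

theorem cn_zero {c : (G →* ℂˣ) → ℂ} {u : (⋀[MonoidAlgebra ℤ G]^r (UM ι S T)) ⊗[ℤ] ℚ}
    (hu : IsStark ι S T w c u) {N : Subgroup G} (hN : N ≠ ⊤) (hx : ¬ NoX ι S w N)
    {χ : G →* ℂˣ} (hχ : χ.ker = N)
    (ψ : Fin r → (UM ι S T →ₗ[MonoidAlgebra ℤ G] MonoidAlgebra ℤ G)) :
    evQ χ (psiQ ψ u) = 0 := by
  refine er_ev hu ?_ ψ
  intro hC
  apply hx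
  intro W hW hWN
  refine hC.2 ?_ W hW ?_
  · intro h
    apply hN
    rw [← hχ, h, MonoidHom.ker_one]
  · intro g hg
    have := hWN g hg
    rw [← hχ, MonoidHom.mem_ker] at this
    exact this

theorem cn_main (hD : Data ι S T r w fr) {c : (G →* ℂˣ) → ℂ} (hc : Lead S T r fr c)
    {u : (⋀[MonoidAlgebra ℤ G]^r (UM ι S T)) ⊗[ℤ] ℚ} (hu : IsStark ι S T w c u) {j : ℕ}
    {N : Subgroup G} {P' : Subgroup (G ⧸ N)} (hC : CycP p j P')
    (ψ : Fin r → (UM ι S T →ₗ[MonoidAlgebra ℤ G] MonoidAlgebra ℤ G)) :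
    ∃ (m : ℕ) (t : ℤ),
      Fintype.card (PS (ovr (Kf ι (P'.comap (QuotientGroup.mk' N))) S)) =
        r * p ^ (j - 1) + m + 1 ∧
      pF P' (fun χ' => evQ (χ'.comp (QuotientGroup.mk' N)) (psiQ ψ u)) =
        (p : ℂ) ^ m * (hJ p F (Kf ι N) S T : ℂ) * t := by
  classical
  have := kf_galois ι N
  obtain ⟨ι', hq⟩ := kf_quo ι N
  let _ : Fintype (G ⧸ N) := Fintype.ofFinite _
  obtain ⟨hNN, hidx, hidx'⟩ := cn_index hC
  obtain ⟨m, hm⟩ : ∃ m, Fintype.card (PS (ovr (Kf ι (P'.comap (QuotientGroup.mk' N))) S)) =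
      r * p ^ (j - 1) + m + 1 := by
    have h1 := card_ovr_ge hD (P'.comap (QuotientGroup.mk' N))
    have h2 := hD.card
    rw [hidx'] at h1
    refine ⟨Fintype.card (PS (ovr (Kf ι (P'.comap (QuotientGroup.mk' N))) S)) -
      r * p ^ (j - 1) - 1, ?_⟩
    omega
  have hNtop : N ≠ ⊤ := by
    intro h
    have h1 := Subgroup.index_eq_one.2 h
    rw [hidx] at h1
    have h2 := Nat.one_lt_pow hC.pos.ne' hC.prime.one_lt
    omega
  by_cases hX : NoX ι S w N
  · have hK : Data ι' S T r (fun i => dn (Kf ι N) (w i))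
        (fun v => QuotientGroup.mk' N (fr v)) := by
      refine cn_data hq hD ?_
      intro W hW hWg
      refine hX W hW fun g hg => ?_
      have h1 := hWg g hg
      rw [← MonoidHom.mem_ker, QuotientGroup.ker_mk'] at h1
      exact h1
    have hKW := data_W hK
    obtain ⟨e⟩ := kf_kf N hq P'
    obtain ⟨ιE, hE⟩ := lay_exists (ι := ι') P'
    have hm' : Fintype.card (PS (ovr (Kf ι' P') S)) = r * p ^ (j - 1) + m + 1 := by
      rw [card_ovr_congr e S, hm]
    have hcF : LeadF S T r (fun v => QuotientGroup.mk' N (fr v)) P'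
        (fun χ' => c (χ'.comp (QuotientGroup.mk' N))) := by
      intro χ' _
      exact hc (χ'.comp (QuotientGroup.mk' N))
    obtain ⟨t, ht⟩ := cp_norm hq hC hD.split hKW hE hm' hcF u hu.value ψ
    exact ⟨m, t, hm, ht⟩
  · refine ⟨m, 0, hm, ?_⟩
    rw [Int.cast_zero, mul_zero]
    obtain ⟨χ₀, hχ₀⟩ := al_exists_fth hC
    have hfin' : Finite ((G ⧸ N) →* ℂˣ) := px2_finite
    let _ : Fintype {χ : (G ⧸ N) →* ℂˣ // Fth P' χ} := Fintype.ofFinite _
    rw [pF, finprod_eq_prod_of_fintype]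
    refine Finset.prod_eq_zero (Finset.mem_univ ⟨χ₀, hχ₀⟩) ?_
    refine cn_zero hu hNtop hX ?_ ψ
    rw [(gf_ker (QuotientGroup.mk'_surjective N) hC χ₀).2 hχ₀, QuotientGroup.ker_mk']

end

end Pool.Agent.AU
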