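import Pool.Agent.Lib_helper3.AU.FN
import Pool.Agent.Lib_helper3.AU.DefsF

/-!
# Integrality of rational Stark elements: the main theorem
-/

namespace Pool.Agent.AU

set_option linter.unusedSectionVars false

open Pool.Agent.RSK
open NumberField IsDedekindDomain Filter Topology Complex
open scoped TensorProduct

section

variable {R M M' A : Type} [CommRing R] [AddCommGroup M] [Module R M] [AddCommGroup M'] [Module R M']
  [CommRing A] [Algebra R A] {r : ℕ}

/-- the image of `u` under `ℚ ⊗ ⋀^r φ` -/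
noncomputable def stMap (φ : M →ₗ[R] M') : (⋀[R]^r M) ⊗[ℤ] ℚ →+ (⋀[R]^r M') ⊗[ℤ] ℚ :=
  (TensorProduct.map (exteriorPower.map r φ).toAddMonoidHom.toIntLinearMap
    (LinearMap.id (R := ℤ) (M := ℚ))).toAddMonoidHom

theorem stMap_tmul (φ : M →ₗ[R] M') (n : ⋀[R]^r M) (q : ℚ) :
    stMap φ (n ⊗ₜ[ℤ] q) = (exteriorPower.map r φ n) ⊗ₜ[ℤ] q := rfl

theorem st_det (φ : M →ₗ[R] M') (f : Fin r → (M' →ₗ[R] A)) (n : ⋀[R]^r M) :
    detMap f (exteriorPower.map r φ n) = detMap (fun i => (f i).comp φ) n := by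
  have h : (detMap f).comp (exteriorPower.map r φ) = detMap (fun i => (f i).comp φ) := by
    apply exteriorPower.linearMap_ext
    ext m
    simp only [LinearMap.compAlternatingMap_apply, LinearMap.comp_apply]
    rw [exteriorPower.map_apply_ιMulti, detMap_ι, detMap_ι]
    rfl
  exact congrArg (fun g => g n) h

theorem st_ext {B : Type} [AddCommGroup B] [Module ℚ B] (h : A →+ B) (φ : M →ₗ[R] M')
    (f : Fin r → (M' →ₗ[R] A)) (u : (⋀[R]^r M) ⊗[ℤ] ℚ) :
    extQ (h.comp (detMap f).toAddMonoidHom) (stMap φ u) =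
      extQ (h.comp (detMap (fun i => (f i).comp φ)).toAddMonoidHom) u := by
  induction u using TensorProduct.induction_on with
  | zero => rw [map_zero, map_zero, map_zero]
  | tmul n q =>
    rw [stMap_tmul, extQ_tmul, extQ_tmul]
    show q • h (detMap f (exteriorPower.map r φ n)) = _
    rw [st_det]
    rfl
  | add a b ha hb => rw [map_add, map_add, map_add, ha, hb]

theorem st_smul (φ : M →ₗ[R] M') (a : R) (u : (⋀[R]^r M) ⊗[ℤ] ℚ) :
    stMap φ (a • u) = a • stMap φ u := by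
  induction u using TensorProduct.induction_on with
  | zero => rw [smul_zero, map_zero, smul_zero]
  | tmul n q =>
    rw [TensorProduct.smul_tmul', stMap_tmul, stMap_tmul, TensorProduct.smul_tmul', map_smul]
  | add x y hx hy => rw [smul_add, map_add, map_add, smul_add, hx, hy]

end

section

variable {F H : Type} [Field F] [NumberField F] [Field H] [NumberField H] [Algebra F H]
  {G : Type} [CommGroup G] [Fintype G] {ι : G ≃* (H ≃ₐ[F] H)}
  {S T : Finset (HeightOneSpectrum (𝓞 F))} {r : ℕ} {w : Fin r → Pl H}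
  {M : Type} [AddCommGroup M] [Module (MonoidAlgebra ℤ G) M] {e : M → Hˣ}
  {l : Fin r → (M →ₗ[MonoidAlgebra ℤ G] MonoidAlgebra ℝ G)}

/-- the isomorphism `M ≃ U_{S,T}` -/
theorem st_equiv (hM : IsMod ι S T w e l) :
    ∃ φ : M ≃ₗ[MonoidAlgebra ℤ G] UM ι S T, ∀ m, (φ m).val = e m := by
  classical
  have he : ∀ m, e m ∈ Un (ovr H S) (ovr H T) := fun m => (isU_iff S T _).2 ((hM.range _).1 ⟨m, rfl⟩)
  let f : M →+ UM ι S T :=
    { toFun := fun m => UM.mk (e m) (he m)
      map_zero' := by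
        apply UM.ext
        rw [UM.val_mk, UM.val_zero]
        have h := hM.add 0 0
        rw [add_zero] at h
        exact mul_eq_left.1 h.symm
      map_add' := fun m n => UM.ext (by
        rw [UM.val_mk, UM.val_add, UM.val_mk, UM.val_mk, hM.add]) }
  have hf : ∀ m, (f m).val = e m := fun m => rfl
  let g : M →ₗ[MonoidAlgebra ℤ G] UM ι S T :=
    { toFun := f
      map_add' := map_add f
      map_smul' := fun a m => by
        show f (a • m) = a • f m
        induction a using MonoidAlgebra.induction_on with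
        | of g =>
          have h : MonoidAlgebra.of ℤ G g = MonoidAlgebra.single g 1 := rfl
          rw [h]
          apply UM.ext
          rw [um_single_smul, hf, hf, hM.smul]
        | add a b ha hb => rw [add_smul, map_add, add_smul, ha, hb]
        | smul c a ha => rw [smul_assoc, smul_assoc, map_zsmul, ha] }
  refine ⟨LinearEquiv.ofBijective g ⟨?_, ?_⟩, fun m => rfl⟩
  · intro m n hmn
    apply hM.inj
    have h := congrArg UM.val hmn
    exact h
  · intro y
    obtain ⟨m, hm⟩ := (hM.range y.val).2 ((isU_iff S T _).1 y.val_mem)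
    exact ⟨m, UM.ext hm⟩

theorem st_main [IsGalois F H] {fr : HeightOneSpectrum (𝓞 F) → G} (hD : Data ι S T r w fr)
    {p : ℕ} (hp : p.Prime) (hG : IsPGroup p G) (hM : IsMod ι S T w e l)
    {c : (G →* ℂˣ) → ℂ} {Θ : MonoidAlgebra ℝ G} (hc : Lead S T r fr c)
    (hΘ : ∀ χ, evR χ Θ = c χ⁻¹) {u : (⋀[MonoidAlgebra ℤ G]^r M) ⊗[ℤ] ℚ}
    (hu : IsStk l {a | ∀ χ, Cont ι S w χ → evZ χ a = 0} Θ u) {q κ : ℕ} (hq : q.Prime)
    (hpq : (q = p ∧ CondP p κ ι S T w) ∨ (q ≠ p ∧
      ∀ x : (ZMod (Monoid.exponent G))ˣ, ∃ i : ℕ, (q : ZMod (Monoid.exponent G)) ^ i = x)) :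
    LocInt (toQ G) q κ u := by
  classical
  have hpfact : Fact p.Prime := ⟨hp⟩
  obtain ⟨φ, hφ⟩ := st_equiv hM
  have hl : ∀ i, (wl ι S T (w i)).comp (φ : M →ₗ[MonoidAlgebra ℤ G] UM ι S T) = l i := by
    intro i
    ext m : 1
    rw [hM.log i m]
    show ∑ γ : G, MonoidAlgebra.single γ (lg (act (ι γ) (w i)) ((φ m).val : H)) = _
    rw [hφ]
  have hu' : IsStark ι S T w c (stMap (φ : M →ₗ[MonoidAlgebra ℤ G] UM ι S T) u) := by
    refine ⟨fun a ha => ?_, fun χ => ?_⟩
    · rw [← st_smul, hu.er a ha, map_zero]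
    · have h1 := st_ext (AddMonoidHom.id (MonoidAlgebra ℝ G))
        (φ : M →ₗ[MonoidAlgebra ℤ G] UM ι S T) (fun i => wl ι S T (w i)) u
      rw [AddMonoidHom.id_comp, AddMonoidHom.id_comp] at h1
      rw [h1]
      have h2 : (fun i => (wl ι S T (w i)).comp (φ : M →ₗ[MonoidAlgebra ℤ G] UM ι S T)) = l :=
        funext hl
      rw [h2, hu.value]
      exact hΘ χ
  intro ψ
  have hψ : psiQ (fun i => (ψ i).comp (φ.symm : UM ι S T →ₗ[MonoidAlgebra ℤ G] M))
      (stMap (φ : M →ₗ[MonoidAlgebra ℤ G] UM ι S T) u) =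
      extQ ((toQ G).toAddMonoidHom.comp (detMap ψ).toAddMonoidHom) u := by
    unfold psiQ
    rw [st_ext]
    have h : (fun i => ((ψ i).comp (φ.symm : UM ι S T →ₗ[MonoidAlgebra ℤ G] M)).comp
        (φ : M →ₗ[MonoidAlgebra ℤ G] UM ι S T)) = ψ := by
      funext i
      ext m : 1
      show ψ i (φ.symm (φ m)) = ψ i m
      rw [φ.symm_apply_apply]
    rw [h]
  have hsm : ∀ (n : ℕ) (x : MonoidAlgebra ℚ G), n • x = MonoidAlgebra.single 1 (n : ℚ) * x := by
    intro n x
    induction n with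
    | zero => rw [zero_smul, Nat.cast_zero, MonoidAlgebra.single_zero, zero_mul]
    | succ n ih =>
      rw [succ_nsmul, ih, Nat.cast_succ, MonoidAlgebra.single_add, add_mul,
        ← MonoidAlgebra.one_def, one_mul]
  rw [← hψ]
  simp only [hsm]
  rcases hpq with ⟨rfl, hS⟩ | ⟨hqp, hgen⟩
  · obtain ⟨m, a, hm, ha⟩ := fn_p hp hG hD hc hu' hS
      (fun i => (ψ i).comp (φ.symm : UM ι S T →ₗ[MonoidAlgebra ℤ G] M))
    refine ⟨m, a, hm, ?_⟩
    rw [← ha, ← mul_assoc, MonoidAlgebra.single_mul_single, one_mul]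
    push_cast
    rfl
  · obtain ⟨k, hk⟩ := IsPGroup.iff_card.1 hG
    obtain ⟨d, -, hd⟩ := (Nat.dvd_prime_pow hp).1 (hk ▸ Group.exponent_dvd_nat_card :
      Monoid.exponent G ∣ p ^ k)
    rw [hd] at hgen
    obtain ⟨m, a, hm, ha⟩ := fn_q hp hG hD hc hu' hq hqp
      (fun g => by rw [← hd]; exact Monoid.pow_exponent_eq_one g) hgen
      (fun i => (ψ i).comp (φ.symm : UM ι S T →ₗ[MonoidAlgebra ℤ G] M))
    refine ⟨m, MonoidAlgebra.single 1 ((q : ℤ) ^ κ) * a, hm, ?_⟩
    rw [map_mul, ← ha, ← mul_assoc]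
    congr 1
    have : toQ G (MonoidAlgebra.single 1 ((q : ℤ) ^ κ)) = MonoidAlgebra.single 1 ((q : ℚ) ^ κ) := by
      simp [toQ]
    rw [this, MonoidAlgebra.single_mul_single, one_mul]
    push_cast
    rw [mul_comm]

/-- without any condition on `S`, the element `#G u` is integral at `p` -/
theorem st_condP [IsGalois F H] {fr : HeightOneSpectrum (𝓞 F) → G} (hD : Data ι S T r w fr)
    {p k κ : ℕ} (hp : p.Prime) (hG : Nat.card G = p ^ k) (hk : k ≤ κ) : CondP p κ ι S T w := by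
  refine ⟨Or.inr ?_, ?_⟩
  · rw [hG]
    exact Dvd.dvd.mul_right (pow_dvd_pow p hk) _
  intro N N' i hcyc hNN hidx hi hX
  refine ⟨0, one_dvd _, ?_⟩
  have h1 := RS2.card_ovr_ge hD N'
  have h2 := hD.card
  have hi' : i < κ := by
    have h3 := N.card_mul_index
    rw [hi, hG, hidx] at h3
    have h4 : 0 < N'.index := Nat.pos_of_ne_zero Subgroup.index_ne_zero_of_finite
    have h5 : p ^ i < p ^ k := by
      rw [← h3]
      have h6 : 1 < p * N'.index := lt_of_lt_of_le hp.one_lt (Nat.le_mul_of_pos_right p h4)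
      exact lt_mul_of_one_lt_right (pow_pos hp.pos i) h6
    exact ((Nat.pow_lt_pow_iff_right hp.one_lt).1 h5).trans_le hk
  have h7 : 1 + i * (p - 1) ≤ κ * (p - 1) := by
    have h8 : 1 ≤ p - 1 := Nat.le_sub_one_of_lt hp.one_lt
    calc 1 + i * (p - 1) ≤ (p - 1) + i * (p - 1) := by omega
      _ = (i + 1) * (p - 1) := by ring
      _ ≤ κ * (p - 1) := Nat.mul_le_mul_right _ hi'
  have h9 : N'.index * (r + 1 + i * (p - 1)) ≤ r * N'.index + N'.index * (κ * (p - 1)) := by
    have : N'.index * (r + 1 + i * (p - 1)) =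
        r * N'.index + N'.index * (1 + i * (p - 1)) := by ring
    rw [this]
    exact Nat.add_le_add_left (Nat.mul_le_mul_left _ h7) _
  omega

theorem st_final (ι : G ≃* (H ≃ₐ[F] H)) (S T : Finset (HeightOneSpectrum (𝓞 F))) (w : Fin r → Pl H)
    (fr : HeightOneSpectrum (𝓞 F) → G) [IsGalois F H] (hD : Data ι S T r w fr)
    {p : ℕ} (hp : p.Prime) (hG : IsPGroup p G) {q κ : ℕ} (hq : q.Prime)
    (hpq : (q = p ∧ (CondP p κ ι S T w ∨ Nat.card G ∣ p ^ κ)) ∨ (q ≠ p ∧
      ∀ x : (ZMod (Monoid.exponent G))ˣ, ∃ i : ℕ, (q : ZMod (Monoid.exponent G)) ^ i = x)) :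
    StarkInt q κ ι S T w fr := by
  intro c Θ hc hΘ M _ _ e l hM u hu
  refine st_main hD hp hG hM hc hΘ hu hq ?_
  rcases hpq with ⟨h1, h2 | h2⟩ | h
  · exact Or.inl ⟨h1, h2⟩
  · have hpfact : Fact p.Prime := ⟨hp⟩
    obtain ⟨k, hk⟩ := IsPGroup.iff_card.1 hG
    rw [hk] at h2
    exact Or.inl ⟨h1, st_condP hD hp hk ((Nat.pow_dvd_pow_iff_le_right hp.one_lt).1 h2)⟩
  · exact Or.inr h

end

end Pool.Agent.AU
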