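import Pool.Agent.Lib_helper35.RS2.P_AT
import Pool.Agent.Lib_helper3.AU.CN
import Pool.Agent.Lib_helper3.AU.T1

/-!
# Rational Stark elements are integral: the final statements
-/

namespace Pool.Agent.AU

set_option linter.unusedSectionVars false

open Pool.Agent.RSK Pool.Agent.RS2
open NumberField IsDedekindDomain Filter Topology Complex
open scoped TensorProduct

section

variable {F H : Type} [Field F] [NumberField F] [Field H] [NumberField H] [Algebra F H]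
  [IsGalois F H] {G : Type} [CommGroup G] [Fintype G] {p : ℕ} {ι : G ≃* (H ≃ₐ[F] H)}
  {S T : Finset (HeightOneSpectrum (𝓞 F))} {r : ℕ} {w : Fin r → Pl H}
  {fr : HeightOneSpectrum (𝓞 F) → G}

/-- the value at the trivial character -/
theorem fn_one (hD : Data ι S T r w fr) {c : (G →* ℂˣ) → ℂ} (hc : Lead S T r fr c)
    {u : (⋀[MonoidAlgebra ℤ G]^r (UM ι S T)) ⊗[ℤ] ℚ} (hu : IsStark ι S T w c u)
    (ψ : Fin r → (UM ι S T →ₗ[MonoidAlgebra ℤ G] MonoidAlgebra ℤ G)) :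
    (∃ t : ℤ, evQ 1 (psiQ ψ u) = (hA S T : ℂ) * t) ∧
      (r + 2 ≤ Fintype.card (InfinitePlace F) + S.card → evQ 1 (psiQ ψ u) = 0) := by
  have h1 : Fintype.card (InfinitePlace F) + S.card ≠ r + 1 → evQ 1 (psiQ ψ u) = 0 := by
    intro h
    exact er_ev hu (fun hC => h (hC.1 rfl)) ψ
  refine ⟨?_, fun h => h1 (by omega)⟩
  by_cases h : Fintype.card (InfinitePlace F) + S.card = r + 1
  · exact t1_main hD h hc u hu.value ψ
  · exact ⟨0, by rw [h1 h, Int.cast_zero, mul_zero]⟩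

/-- the component at `N` -/
theorem fn_comp {N : Subgroup G} {P' : Subgroup (G ⧸ N)} (y : MonoidAlgebra ℚ G) :
    ∃ yN : MonoidAlgebra ℚ (G ⧸ N), toQ (G ⧸ N) (nP P') * yN = 0 ∧
      ∀ χ' : (G ⧸ N) →* ℂˣ, Fth P' χ' → evQ χ' yN = evQ (χ'.comp (QuotientGroup.mk' N)) y := by
  classical
  let _ : Fintype (G ⧸ N) := Fintype.ofFinite _
  obtain ⟨z, hz0, hz⟩ := div_exists_nP (P := P')
    (MonoidAlgebra.mapDomainRingHom ℚ (QuotientGroup.mk' N) y) 1
    (fun χ _ => by rw [map_one]; exact one_ne_zero)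
  refine ⟨z, hz0, fun χ' hχ' => ?_⟩
  rw [tf_evQ, ← hz χ' hχ', map_one, mul_one]

theorem fn_q (hp : p.Prime) (hG : IsPGroup p G) (hD : Data ι S T r w fr)
    {c : (G →* ℂˣ) → ℂ} (hc : Lead S T r fr c)
    {u : (⋀[MonoidAlgebra ℤ G]^r (UM ι S T)) ⊗[ℤ] ℚ} (hu : IsStark ι S T w c u) {q e : ℕ}
    (hq : q.Prime) (hqp : q ≠ p) (hexp : ∀ g : G, g ^ p ^ e = 1)
    (hgen : ∀ x : (ZMod (p ^ e))ˣ, ∃ i : ℕ, (q : ZMod (p ^ e)) ^ i = x) : IntAt u q := by
  classical
  have hpfact : Fact p.Prime := ⟨hp⟩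
  intro ψ
  obtain ⟨k, hk⟩ := IsPGroup.iff_card.1 hG
  have hqk : ¬ q ∣ p ^ k := fun h => hqp ((Nat.prime_dvd_prime_iff_eq hq hp).1
    (hq.dvd_of_dvd_pow h))
  refine gl_main hq (psiQ ψ u) ?_ ?_
  · obtain ⟨⟨t, ht⟩, -⟩ := fn_one hD hc hu ψ
    refine ⟨Nat.card G, hA S T * t, by rw [hk]; exact hqk, ?_⟩
    rw [ht]
    push_cast
    ring
  · intro N hcyc hN
    let _ : Fintype (G ⧸ N) := Fintype.ofFinite _
    obtain ⟨j, hj⟩ := IsPGroup.iff_card.1 (hG.to_quotient N)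
    obtain ⟨i, hi⟩ := IsPGroup.iff_card.1 (hG.to_subgroup N)
    have hj0 : 0 < j := by
      rcases Nat.eq_zero_or_pos j with h | h
      · exfalso
        rw [h, pow_zero] at hj
        exact hN (Subgroup.index_eq_one.1 hj)
      · exact h
    obtain ⟨P', hC⟩ := cn_cycp hp hj0 hcyc hj
    obtain ⟨m, t, -, ht⟩ := cn_main hD hc hu hC ψ
    obtain ⟨yN, hy0, hyN⟩ := fn_comp (P' := P') (psiQ ψ u)
    have hpF : pF P' (fun χ' => evQ χ' yN) =
        (((p : ℤ) ^ m * (hJ p F (Kf ι N) S T : ℤ) * t : ℤ) : ℂ) := by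
      push_cast
      rw [← ht]
      unfold pF
      exact finprod_congr fun χ' => hyN χ'.1 χ'.2
    -- `q` generates `(ℤ/p^j)ˣ`
    have hje : p ^ j ∣ p ^ e := by
      obtain ⟨g, hg⟩ := hcyc.exists_generator
      have h1 : orderOf g = p ^ j := by rw [orderOf_eq_card_of_forall_mem_zpowers hg, hj]
      rw [← h1]
      apply orderOf_dvd_of_pow_eq_one
      obtain ⟨g, rfl⟩ := QuotientGroup.mk_surjective g
      rw [← QuotientGroup.mk_pow, hexp]
      rfl
    have hgen' : ∀ x : (ZMod (p ^ j))ˣ, ∃ i : ℕ, (q : ZMod (p ^ j)) ^ i = x := by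
      intro x
      have : NeZero (p ^ e) := ⟨(pow_pos hp.pos e).ne'⟩
      obtain ⟨x', rfl⟩ := ZMod.unitsMap_surjective hje x
      obtain ⟨i, hi⟩ := hgen x'
      refine ⟨i, ?_⟩
      have h2 := congrArg (ZMod.castHom hje (ZMod (p ^ j))) hi
      rw [map_pow, map_natCast] at h2
      rw [h2]
      rfl
    obtain ⟨n, a, hn, ha⟩ := alg_l hC hq hqp hgen' yN hy0 _ hpF
    have hcard : Nat.card (QuotientGroup.mk' N).ker = p ^ i := by
      rw [QuotientGroup.ker_mk', hi]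
    obtain ⟨b, hb1, hb2⟩ := gf_lift (QuotientGroup.mk'_surjective N) hC (psiQ ψ u) yN hy0 hyN
      (p ^ i * n) a (by
        rw [hcard, map_mul, ← ha, ← mul_assoc]
        congr 1
        have : toQ (G ⧸ N) (MonoidAlgebra.single 1 ((p ^ i : ℕ) : ℤ)) =
            MonoidAlgebra.single 1 ((p ^ i : ℕ) : ℚ) := by
          simp [toQ]
        rw [this, MonoidAlgebra.single_mul_single, one_mul]
        push_cast
        rfl)
    rw [QuotientGroup.ker_mk'] at hb1 hb2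
    refine ⟨p ^ i * n, b, ?_, hb1, hb2⟩
    intro h
    rcases hq.dvd_mul.1 h with h | h
    · exact hqp ((Nat.prime_dvd_prime_iff_eq hq hp).1 (hq.dvd_of_dvd_pow h))
    · exact hn h

theorem fn_card {G : Type} [CommGroup G] [Fintype G] {P : Subgroup G} {j : ℕ}
    (hC : CycP p j P) : Nat.card {χ : G →* ℂˣ // Fth P χ} = p ^ (j - 1) * (p - 1) := by
  classical
  have hcyc := al_dual_cyc hC.cyc
  have hfin : Finite (G →* ℂˣ) := px2_finite
  let _ : Fintype (G →* ℂˣ) := Fintype.ofFinite _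
  have h1 : Nat.card {χ : G →* ℂˣ // Fth P χ} =
      (Finset.univ.filter fun χ : G →* ℂˣ => orderOf χ = p ^ j).card := by
    rw [Nat.card_eq_fintype_card, Fintype.card_subtype]
    congr 1
    ext χ
    simp only [Finset.mem_filter, Finset.mem_univ, true_and]
    exact al_fth hC χ
  have h2 : Fintype.card (G →* ℂˣ) = p ^ j := by
    rw [← Nat.card_eq_fintype_card, px2_card, hC.card]
  rw [h1, IsCyclic.card_orderOf_eq_totient (by rw [h2]), Nat.totient_prime_pow hC.prime hC.pos]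

theorem fn_p (hp : p.Prime) (hG : IsPGroup p G) (hD : Data ι S T r w fr)
    {c : (G →* ℂˣ) → ℂ} (hc : Lead S T r fr c)
    {u : (⋀[MonoidAlgebra ℤ G]^r (UM ι S T)) ⊗[ℤ] ℚ} (hu : IsStark ι S T w c u) {κ : ℕ}
    (hS : CondP p κ ι S T w)
    (ψ : Fin r → (UM ι S T →ₗ[MonoidAlgebra ℤ G] MonoidAlgebra ℤ G)) :
    ∃ (m : ℕ) (a : MonoidAlgebra ℤ G), ¬ p ∣ m ∧ MonoidAlgebra.single 1 (m : ℚ) *
      (MonoidAlgebra.single 1 ((p : ℚ) ^ κ) * psiQ ψ u) = toQ G a := by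
  classical
  obtain ⟨hS, hS'⟩ := hS
  have hpfact : Fact p.Prime := ⟨hp⟩
  have hev : ∀ χ : G →* ℂˣ, evQ χ (MonoidAlgebra.single 1 ((p : ℚ) ^ κ) * psiQ ψ u) =
      (p : ℂ) ^ κ * evQ χ (psiQ ψ u) := by
    intro χ
    rw [map_mul, px2_evQ_single, map_one]
    push_cast
    ring
  refine gl_main hp _ ?_ ?_
  · obtain ⟨⟨t, ht⟩, h0⟩ := fn_one hD hc hu ψ
    refine ⟨1, ?_⟩
    rcases hS with hS | ⟨n, hn⟩
    · refine ⟨0, hp.one_lt.ne' ∘ Nat.dvd_one.1, ?_⟩
      rw [hev, h0 hS, Int.cast_zero, mul_zero, mul_zero, mul_zero]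
    · refine ⟨n * t, hp.one_lt.ne' ∘ Nat.dvd_one.1, ?_⟩
      have hn' : (p : ℂ) ^ κ * (hA S T : ℂ) = (Nat.card G : ℂ) * n := by exact_mod_cast hn
      rw [hev, ht]
      push_cast
      linear_combination (t : ℂ) * hn'
  · intro N hcyc hN
    let _ : Fintype (G ⧸ N) := Fintype.ofFinite _
    obtain ⟨j, hj⟩ := IsPGroup.iff_card.1 (hG.to_quotient N)
    obtain ⟨i, hi⟩ := IsPGroup.iff_card.1 (hG.to_subgroup N)
    have hj0 : 0 < j := by
      rcases Nat.eq_zero_or_pos j with h | h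
      · exfalso
        rw [h, pow_zero] at hj
        exact hN (Subgroup.index_eq_one.1 hj)
      · exact h
    by_cases hX : NoX ι S w N
    · obtain ⟨P', hC⟩ := cn_cycp hp hj0 hcyc hj
      obtain ⟨hNN, hidx, hidx'⟩ := cn_index hC
      obtain ⟨m, t, hm, ht⟩ := cn_main hD hc hu hC ψ
      obtain ⟨yN, hy0, hyN⟩ := fn_comp (P' := P') (psiQ ψ u)
      have hpj : p ^ j = p * p ^ (j - 1) := by rw [← pow_succ', Nat.sub_add_cancel hj0]
      obtain ⟨a, ⟨b, hb⟩, ha⟩ := hS' N _ i hcyc hNN (by rw [hidx, hidx', hpj]) hi hX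
      rw [hidx', hm] at ha
      -- multiplication by `p ^ κ`
      set zN : MonoidAlgebra ℚ (G ⧸ N) := MonoidAlgebra.single 1 ((p : ℚ) ^ κ) * yN with hzN
      have hz0 : toQ (G ⧸ N) (nP P') * zN = 0 := by
        rw [hzN, mul_left_comm, hy0, mul_zero]
      have hzN' : ∀ χ' : (G ⧸ N) →* ℂˣ, Fth P' χ' → evQ χ' zN =
          evQ (χ'.comp (QuotientGroup.mk' N))
            (MonoidAlgebra.single 1 ((p : ℚ) ^ κ) * psiQ ψ u) := by
        intro χ' hχ'
        rw [hev, ← hyN χ' hχ', hzN, map_mul, px2_evQ_single, map_one]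
        push_cast
        ring
      have hpF : pF P' (fun χ' => evQ χ' zN) =
          (p : ℂ) ^ (m + a + κ * (p ^ (j - 1) * (p - 1))) * ((b * t : ℤ) : ℂ) := by
        have h1 : pF P' (fun χ' => evQ χ' zN) =
            pF P' (fun χ' => (p : ℂ) ^ κ *
              evQ (χ'.comp (QuotientGroup.mk' N)) (psiQ ψ u)) := by
          unfold pF
          refine finprod_congr fun χ' => ?_
          show evQ χ'.1 zN = (p : ℂ) ^ κ *
            evQ (χ'.1.comp (QuotientGroup.mk' N)) (psiQ ψ u)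
          rw [hzN' χ'.1 χ'.2, hev]
        rw [h1, al_pF_smul, fn_card hC, ht, hb, ← pow_mul]
        push_cast
        ring
      have hκ : p ^ (j - 1) * (i * (p - 1) + 1) ≤ m + a + κ * (p ^ (j - 1) * (p - 1)) := by
        have h1 : p ^ (j - 1) * (r + 1 + i * (p - 1)) =
            r * p ^ (j - 1) + p ^ (j - 1) * (i * (p - 1) + 1) := by ring
        have h2 : p ^ (j - 1) * (κ * (p - 1)) = κ * (p ^ (j - 1) * (p - 1)) := by ring
        omega
      obtain ⟨n, a', hn, ha'⟩ := alg_fin_at hC zN hz0 ⟨_, hpF⟩ hκ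
      have hcard : Nat.card (QuotientGroup.mk' N).ker = p ^ i := by
        rw [QuotientGroup.ker_mk', hi]
      obtain ⟨b, hb1, hb2⟩ := gf_lift (QuotientGroup.mk'_surjective N) hC _ zN hz0 hzN'
        n a' (by
          rw [hcard, ha']
          push_cast
          rfl)
      rw [QuotientGroup.ker_mk'] at hb1 hb2
      exact ⟨n, b, hn, hb1, hb2⟩
    · refine ⟨1, 0, hp.one_lt.ne' ∘ Nat.dvd_one.1, fun χ hχ => ?_, fun χ _ => map_zero _⟩
      rw [hev, cn_zero hu hN hX hχ ψ, mul_zero, mul_zero, map_zero]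

end

end Pool.Agent.AU
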