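import Pool.Agent.Lib_helper3.AU.Defs

/-!
# Determinants of functionals on an exterior power of rank `r`
-/

namespace Pool.Agent.AU

set_option linter.unusedSectionVars false

open Pool.Agent.RSK
open NumberField IsDedekindDomain Filter Topology Complex
open scoped TensorProduct

theorem ln_extQ {N B C : Type} [AddCommGroup N] [AddCommGroup B] [Module ℚ B] [AddCommGroup C]
    [Module ℚ C] (h : B →+ C) (f : N →+ B) (v : N ⊗[ℤ] ℚ) : h (extQ f v) = extQ (h.comp f) v := by
  induction v using TensorProduct.induction_on with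
  | zero => rw [map_zero, map_zero, map_zero]
  | tmul n q =>
    rw [extQ_tmul, extQ_tmul, map_rat_smul]
    rfl
  | add a b ha hb => rw [map_add, map_add, map_add, ha, hb]

section

variable {R M : Type} [CommRing R] [AddCommGroup M] [Module R M] {r : ℕ} (ε : R →+* ℂ)

theorem ln_wedge (b : Fin r → M)
    (hb : ∀ m : M, ∃ (β : R) (α : Fin r → R), ε β ≠ 0 ∧ β • m = ∑ k, α k • b k)
    (n : ⋀[R]^r M) : ∃ z : ℂ, ∀ (A : Type) [CommRing A] [Algebra R A] (εA : A →+* ℂ),
      (∀ a, εA (algebraMap R A a) = ε a) → ∀ f : Fin r → (M →ₗ[R] A),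
      εA (detMap f n) = z * εA (Matrix.det (Matrix.of fun i k => f i (b k))) := by
  have hn : n ∈ Submodule.span R (Set.range (exteriorPower.ιMulti R r (M := M))) := by
    rw [exteriorPower.ιMulti_span]
    trivial
  induction hn using Submodule.span_induction with
  | mem n hn =>
    obtain ⟨m, rfl⟩ := hn
    choose β α hβ hα using hb
    refine ⟨Matrix.det (Matrix.of fun (k j : Fin r) => ε (α (m j) k) / ε (β (m j))), ?_⟩
    intro A _ _ εA hεA f
    rw [detMap_ι, RingHom.map_det, RingHom.map_det, mul_comm, ← Matrix.det_mul]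
    congr 1
    ext i j
    have h1 : ε (β (m j)) * εA (f i (m j)) = ∑ k, ε (α (m j) k) * εA (f i (b k)) := by
      have h2 := congrArg (fun x => εA (f i x)) (hα (m j))
      simp only [map_sum, map_smul, Algebra.smul_def, map_mul, hεA] at h2
      exact h2
    have h3 : εA (f i (m j)) = ∑ k, εA (f i (b k)) * (ε (α (m j) k) / ε (β (m j))) := by
      have h4 : εA (f i (m j)) = (∑ k, ε (α (m j) k) * εA (f i (b k))) / ε (β (m j)) := by
        rw [← h1, mul_div_cancel_left₀ _ (hβ (m j))]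
      rw [h4, Finset.sum_div]
      refine Finset.sum_congr rfl fun k _ => ?_
      ring
    simpa [Matrix.mul_apply] using h3
  | zero =>
    refine ⟨0, ?_⟩
    intro A _ _ εA hεA f
    rw [map_zero, map_zero, zero_mul]
  | add a b' _ _ ha hb' =>
    obtain ⟨z, hz⟩ := ha
    obtain ⟨z', hz'⟩ := hb'
    refine ⟨z + z', ?_⟩
    intro A _ _ εA hεA f
    rw [map_add, map_add, hz A εA hεA f, hz' A εA hεA f]
    ring
  | smul c a _ ha =>
    obtain ⟨z, hz⟩ := ha
    refine ⟨ε c * z, ?_⟩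
    intro A _ _ εA hεA f
    rw [map_smul, Algebra.smul_def, map_mul, hεA, hz A εA hεA f]
    ring

theorem ln_tensor (b : Fin r → M)
    (hb : ∀ m : M, ∃ (β : R) (α : Fin r → R), ε β ≠ 0 ∧ β • m = ∑ k, α k • b k)
    (v : (⋀[R]^r M) ⊗[ℤ] ℚ) : ∃ z : ℂ, ∀ (A : Type) [CommRing A] [Algebra R A] (εA : A →+* ℂ),
      (∀ a, εA (algebraMap R A a) = ε a) → ∀ f : Fin r → (M →ₗ[R] A),
      extQ ((εA : A →+ ℂ).comp (detMap f).toAddMonoidHom) v =
        z * εA (Matrix.det (Matrix.of fun i k => f i (b k))) := by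
  induction v using TensorProduct.induction_on with
  | zero =>
    refine ⟨0, ?_⟩
    intro A _ _ εA hεA f
    rw [map_zero, zero_mul]
  | tmul n q =>
    obtain ⟨z, hz⟩ := ln_wedge ε b hb n
    refine ⟨q * z, ?_⟩
    intro A _ _ εA hεA f
    rw [extQ_tmul]
    show q • εA (detMap f n) = _
    rw [hz A εA hεA f, Rat.smul_def]
    ring
  | add a b' ha hb' =>
    obtain ⟨z, hz⟩ := ha
    obtain ⟨z', hz'⟩ := hb'
    refine ⟨z + z', ?_⟩
    intro A _ _ εA hεA f
    rw [map_add, hz A εA hεA f, hz' A εA hεA f]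
    ring

end

section

variable {F H : Type} [Field F] [NumberField F] [Field H] [NumberField H] [Algebra F H]
variable {G : Type} [CommGroup G] [Fintype G] {ι : G ≃* (H ≃ₐ[F] H)}
  {S T : Finset (HeightOneSpectrum (𝓞 F))} {r : ℕ}

theorem ln_evQ_psiQ (χ : G →* ℂˣ)
    (ψ : Fin r → (UM ι S T →ₗ[MonoidAlgebra ℤ G] MonoidAlgebra ℤ G))
    (u : (⋀[MonoidAlgebra ℤ G]^r (UM ι S T)) ⊗[ℤ] ℚ) :
    evQ χ (psiQ ψ u) = extQ ((evZ χ : MonoidAlgebra ℤ G →+ ℂ).comp (detMap ψ).toAddMonoidHom) u := by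
  rw [psiQ]
  exact ln_extQ (evQ χ : MonoidAlgebra ℚ G →+ ℂ) _ u

/-- the values at `χ` of the images of `u` are proportional to the values for `b` -/
theorem ln_main (w : Fin r → Pl H) (χ : G →* ℂˣ) (b : Fin r → UM ι S T)
    (hb : ∀ m : UM ι S T, ∃ (β : MonoidAlgebra ℤ G) (α : Fin r → MonoidAlgebra ℤ G),
      evZ χ β ≠ 0 ∧ β • m = ∑ k, α k • b k)
    (u : (⋀[MonoidAlgebra ℤ G]^r (UM ι S T)) ⊗[ℤ] ℚ) :
    ∃ z : ℂ, (∀ ψ : Fin r → (UM ι S T →ₗ[MonoidAlgebra ℤ G] MonoidAlgebra ℤ G),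
      evQ χ (psiQ ψ u) = z * evZ χ (pmat ψ b).det) ∧
      evR χ (extQ (detMap (fun i => wl ι S T (w i))).toAddMonoidHom u) =
        z * evR χ (wmat ι S T w b).det := by
  obtain ⟨z, hz⟩ := ln_tensor (evZ χ) b hb u
  refine ⟨z, fun ψ => ?_, ?_⟩
  · rw [ln_evQ_psiQ]
    exact hz (MonoidAlgebra ℤ G) (evZ χ) (fun a => rfl) ψ
  · have h1 := ln_extQ (evR χ : MonoidAlgebra ℝ G →+ ℂ)
      (detMap (fun i => wl ι S T (w i))).toAddMonoidHom u
    refine h1.trans ?_
    refine hz (MonoidAlgebra ℝ G) (evR χ : MonoidAlgebra ℝ G →+* ℂ) (fun a => ?_)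
      (fun i => wl ι S T (w i))
    show evR χ (toR G a) = evZ χ a
    induction a using MonoidAlgebra.induction_on with
    | of g =>
      have h : MonoidAlgebra.of ℤ G g = MonoidAlgebra.single g 1 := rfl
      rw [h]
      simp [toR, evZ, toQ, evQ, evR]
    | add a b ha hb => rw [map_add, map_add, map_add, ha, hb]
    | smul c a ha => rw [map_zsmul, map_zsmul, map_zsmul, ha]

end

end Pool.Agent.AU
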