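import Pool.Agent.Lib_helper3.AU.TRF

/-!
# Gluing the components
-/

namespace Pool.Agent.AU

set_option linter.unusedSectionVars false

open Pool.Agent.RSK Pool.Agent.RS2
open NumberField IsDedekindDomain Filter Topology Complex
open scoped TensorProduct

section

variable {G : Type} [CommGroup G] [Fintype G]

/-- the kernel of a nontrivial character -/
theorem gl_ker {χ : G →* ℂˣ} (hχ : χ ≠ 1) : IsCyclic (G ⧸ χ.ker) ∧ χ.ker ≠ ⊤ := by
  constructor
  · have : Finite χ.range := Set.finite_range χ |>.to_subtype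
    have : IsCyclic χ.range := inferInstance
    exact (QuotientGroup.quotientKerEquivRange χ).symm.isCyclic.1 inferInstance
  · intro h
    apply hχ
    ext g
    have : g ∈ χ.ker := by rw [h]; trivial
    rw [MonoidHom.mem_ker] at this
    rw [this]; rfl

theorem gl_main {q : ℕ} (hq : q.Prime) (y : MonoidAlgebra ℚ G)
    (h1 : ∃ (n : ℕ) (t : ℤ), ¬ q ∣ n ∧ (n : ℂ) * evQ 1 y = (Nat.card G : ℂ) * t)
    (hN : ∀ N : Subgroup G, IsCyclic (G ⧸ N) → N ≠ ⊤ → ∃ (n : ℕ) (a : MonoidAlgebra ℤ G), ¬ q ∣ n ∧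
      (∀ χ : G →* ℂˣ, χ.ker = N → (n : ℂ) * evQ χ y = evZ χ a) ∧
      ∀ χ : G →* ℂˣ, χ.ker ≠ N → evZ χ a = 0) :
    ∃ (m : ℕ) (a : MonoidAlgebra ℤ G), ¬ q ∣ m ∧ MonoidAlgebra.single 1 (m : ℚ) * y = toQ G a := by
  classical
  let K := {N : Subgroup G // IsCyclic (G ⧸ N) ∧ N ≠ ⊤}
  let _ : Fintype K := Fintype.ofFinite K
  have hN' : ∀ N : K, ∃ (n : ℕ) (a : MonoidAlgebra ℤ G), ¬ q ∣ n ∧
      (∀ χ : G →* ℂˣ, χ.ker = N.1 → (n : ℂ) * evQ χ y = evZ χ a) ∧
      ∀ χ : G →* ℂˣ, χ.ker ≠ N.1 → evZ χ a = 0 := fun N => hN N.1 N.2.1 N.2.2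
  choose n a hn ha ha0 using hN'
  obtain ⟨n₁, t, hn₁, ht⟩ := h1
  refine ⟨n₁ * ∏ N, n N, ((∏ N, (n N : ℤ)) * t) • nrm G +
    ∑ N, ((n₁ : ℤ) * ∏ N' ∈ Finset.univ.erase N, (n N' : ℤ)) • a N, ?_, ?_⟩
  · intro h
    rcases hq.dvd_mul.1 h with h | h
    · exact hn₁ h
    · obtain ⟨N, -, hN⟩ := (Prime.dvd_finsetProd_iff hq.prime _).1 h
      exact hn N hN
  · apply evQ_inj
    intro χ
    have hl : evQ χ (MonoidAlgebra.single 1 ((n₁ * ∏ N, n N : ℕ) : ℚ) * y) =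
        (n₁ : ℂ) * (∏ N, (n N : ℂ)) * evQ χ y := by
      rw [map_mul, px2_evQ_single, map_one]
      push_cast
      ring
    have hr : evQ χ (toQ G (((∏ N, (n N : ℤ)) * t) • nrm G +
        ∑ N, ((n₁ : ℤ) * ∏ N' ∈ Finset.univ.erase N, (n N' : ℤ)) • a N)) =
        (∏ N, (n N : ℂ)) * t * evQ χ (toQ G (nrm G)) +
          ∑ N, ((n₁ : ℂ) * ∏ N' ∈ Finset.univ.erase N, (n N' : ℂ)) * evZ χ (a N) := by
      rw [map_add, map_add, map_zsmul, map_zsmul, map_sum, map_sum, zsmul_eq_mul]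
      congr 1
      · push_cast
        ring
      · refine Finset.sum_congr rfl fun N _ => ?_
        rw [map_zsmul, map_zsmul, zsmul_eq_mul, al_evZ]
        push_cast
        ring
    rw [hl, hr]
    by_cases hχ : χ = 1
    · subst hχ
      rw [px2_evQ_nrm_one, Finset.sum_eq_zero, add_zero]
      · linear_combination (∏ N, (n N : ℂ)) * ht
      · intro N _
        rw [ha0 N 1, mul_zero]
        rw [MonoidHom.ker_one]
        exact fun h => N.2.2 h.symm
    · rw [px2_evQ_nrm hχ, mul_zero, zero_add]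
      set N₀ : K := ⟨χ.ker, gl_ker hχ⟩ with hN₀
      rw [Finset.sum_eq_single N₀]
      · rw [← ha N₀ χ rfl, ← Finset.mul_prod_erase Finset.univ (fun N => (n N : ℂ))
          (Finset.mem_univ N₀)]
        ring
      · intro N _ hN
        rw [ha0 N χ (fun h => hN (Subtype.ext h.symm)), mul_zero]
      · intro h
        exact absurd (Finset.mem_univ _) h

end

end Pool.Agent.AU
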